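import Pool.Agent.H60.FlexCount

set_option autoImplicit false

open Filter Real

namespace Pool.H60.Flex

lemma log_le_two_sqrt {y : ℝ} (hy : 0 < y) : Real.log y ≤ 2 * Real.sqrt y := by
  have h1 : 0 < Real.sqrt y := Real.sqrt_pos.2 hy
  have h2 := Real.log_le_sub_one_of_pos h1
  have h3 : Real.log y = 2 * Real.log (Real.sqrt y) := by
    rw [Real.log_sqrt hy.le]; ring
  rw [h3]
  linarith

/-- super-polylogarithmic lower bound -/
theorem f_asymp : ∀ᶠ n : ℕ in atTop,
    (n : ℝ) * Real.exp (1 / 4 * Real.sqrt (Real.log n / Real.log (Real.log n))) ≤ f n := by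
  have hlog : Tendsto (fun n : ℕ => Real.log (n : ℝ)) atTop atTop :=
    Real.tendsto_log_atTop.comp tendsto_natCast_atTop_atTop
  filter_upwards [hlog.eventually_ge_atTop (4000000 : ℝ), eventually_gt_atTop 0] with n hy hn0
  set y : ℝ := Real.log n with hydef
  have hypos : 0 < y := by linarith
  have hnr : (0 : ℝ) < n := by exact_mod_cast hn0
  have hexpy : Real.exp y = n := Real.exp_log hnr
  -- `log y ≥ 1`
  have hlogy1 : 1 ≤ Real.log y := by
    rw [Real.le_log_iff_exp_le hypos]
    have := Real.exp_one_lt_d9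
    linarith
  have hlogypos : 0 < Real.log y := by linarith
  set x : ℝ := Real.sqrt (y / Real.log y) with hx
  have hx2 : x ^ 2 = y / Real.log y := Real.sq_sqrt (by positivity)
  have hx0 : 0 ≤ x := Real.sqrt_nonneg _
  have hsy : Real.sqrt y ≥ 2000 := by
    apply Real.le_sqrt_of_sq_le
    linarith
  have hxge : 30 ≤ x := by
    apply Real.le_sqrt_of_sq_le
    rw [le_div_iff₀ hlogypos]
    have h1 := log_le_two_sqrt hypos
    have h2 : Real.sqrt y * Real.sqrt y = y := Real.mul_self_sqrt hypos.le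
    nlinarith
  have hxle : x ≤ Real.sqrt y := by
    apply Real.sqrt_le_sqrt
    exact div_le_self hypos.le hlogy1
  set K : ℕ := ⌊x / 2⌋₊ with hK
  have hK1 : (K : ℝ) ≤ x / 2 := Nat.floor_le (by linarith)
  have hK2 : x / 2 < K + 1 := Nat.lt_floor_add_one _
  have hK3 : (14 : ℝ) < K := by linarith
  have hK4 : 14 < K := by exact_mod_cast hK3
  obtain ⟨k, hk⟩ : ∃ k, K = k + 1 := ⟨K - 1, by omega⟩
  have hKpos : (0 : ℝ) < K := by linarith
  -- the size condition
  have hsize : (4 * (k + 1) * (k + 1).factorial) ^ (k + 1) ≤ n := by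
    rw [← hk]
    have h1 : 4 * K * K.factorial ≤ K ^ (K + 3) := by
      have h2 : K.factorial ≤ K ^ K := Nat.factorial_le_pow K
      have h3 : 4 ≤ K ^ 2 := by nlinarith
      calc 4 * K * K.factorial ≤ K ^ 2 * K * K ^ K :=
            Nat.mul_le_mul (Nat.mul_le_mul h3 le_rfl) h2
        _ = K ^ (K + 3) := by ring
    have h4 : (4 * K * K.factorial) ^ K ≤ (K ^ (K + 3)) ^ K := Nat.pow_le_pow_left h1 K
    have h5 : (((K ^ (K + 3)) ^ K : ℕ) : ℝ) ≤ n := by
      push_cast
      rw [← pow_mul, ← hexpy]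
      rw [← Real.exp_log (pow_pos hKpos _), Real.exp_le_exp, Real.log_pow]
      push_cast
      have h6 : Real.log K ≤ 1 / 2 * Real.log y := by
        have : Real.log K ≤ Real.log (Real.sqrt y) :=
          Real.log_le_log hKpos (by linarith)
        rw [Real.log_sqrt hypos.le] at this
        linarith
      have h7 : 0 ≤ Real.log K := Real.log_nonneg (by linarith)
      have h8 : ((K : ℝ) + 3) * K ≤ 2 * (x / 2) ^ 2 := by nlinarith
      calc ((K : ℝ) + 3) * K * Real.log K ≤ 2 * (x / 2) ^ 2 * (1 / 2 * Real.log y) :=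
            mul_le_mul h8 h6 h7 (by positivity)
        _ = (x ^ 2 * Real.log y) / 4 := by ring
        _ = y / 4 := by rw [hx2, div_mul_cancel₀ _ hlogypos.ne']
        _ ≤ y := by linarith
    exact h4.trans (by exact_mod_cast h5)
  have hf := f_lower n k hsize
  refine le_trans ?_ hf.le
  have h9 : Real.exp (1 / 4 * x) ≤ 2 ^ k / 4 := by
    have h10 : (2 : ℝ) ^ k / 4 = Real.exp (((K : ℝ) - 3) * Real.log 2) := by
      have : (2 : ℝ) ^ k = Real.exp ((k : ℝ) * Real.log 2) := by
        rw [mul_comm, Real.exp_mul, Real.exp_log (by norm_num : (0 : ℝ) < 2),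
          Real.rpow_natCast]
      rw [this]
      have h4 : (4 : ℝ) = Real.exp (2 * Real.log 2) := by
        rw [mul_comm, Real.exp_mul, Real.exp_log (by norm_num : (0 : ℝ) < 2)]
        norm_num
      rw [h4, ← Real.exp_sub]
      congr 1
      rw [hk]; push_cast; ring
    rw [h10, Real.exp_le_exp]
    have h11 := Real.log_two_gt_d9
    nlinarith
  calc (n : ℝ) * Real.exp (1 / 4 * x) ≤ n * (2 ^ k / 4) :=
        mul_le_mul_of_nonneg_left h9 hnr.le
    _ = 2 ^ k * n / 4 := by ring

end Pool.H60.Flex
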