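import Pool.Agent.H60.FlexGraph

set_option autoImplicit false

/-!
# Counting edges and the asymptotic lower bound
-/

open Polynomial Finset

namespace Pool.H60.Flex

/-- from coefficient vectors to polynomials -/
noncomputable def toPoly {k : ℕ} (x : Fin (k + 1) → ℤ) : ℤ[X] :=
  ∑ l : Fin (k + 1), monomial (l : ℕ) (x l)

lemma coeff_toPoly {k : ℕ} (x : Fin (k + 1) → ℤ) (l : Fin (k + 1)) :
    (toPoly x).coeff (l : ℕ) = x l := by
  unfold toPoly
  rw [finsetSum_coeff]
  simp only [coeff_monomial, Fin.val_inj]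
  rw [sum_ite_eq' univ l x]
  simp

lemma toPoly_inj {k : ℕ} : Function.Injective (toPoly (k := k)) := by
  intro x y h
  ext l
  rw [← coeff_toPoly x l, h, coeff_toPoly]

lemma toPoly_add {k : ℕ} (x y : Fin (k + 1) → ℤ) : toPoly (x + y) = toPoly x + toPoly y := by
  unfold toPoly
  rw [← sum_add_distrib]
  apply sum_congr rfl
  intro l _
  rw [Pi.add_apply, map_add]

lemma natDegree_toPoly {k : ℕ} (x : Fin (k + 1) → ℤ) : (toPoly x).natDegree ≤ k := by
  unfold toPoly
  apply natDegree_sum_le_of_forall_le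
  intro l _
  exact (natDegree_monomial_le _).trans (Nat.lt_succ_iff.1 l.isLt)

lemma toPoly_coeff {k : ℕ} (P : ℤ[X]) (hP : P.natDegree ≤ k) :
    toPoly (fun l : Fin (k + 1) => P.coeff l) = P := by
  ext j
  by_cases hj : j < k + 1
  · exact coeff_toPoly (fun l : Fin (k + 1) => P.coeff l) ⟨j, hj⟩
  · have h1 : (toPoly (fun l : Fin (k + 1) => P.coeff l)).natDegree < j :=
      lt_of_le_of_lt (natDegree_toPoly _) (by omega)
    rw [coeff_eq_zero_of_natDegree_lt h1, coeff_eq_zero_of_natDegree_lt (by omega)]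

/-- the side lengths of the box -/
def side (k L M : ℕ) (l : Fin (k + 1)) : ℕ := if (l : ℕ) = k then M else L

lemma prod_side (k : ℕ) (g : ℕ → ℕ) (L M : ℕ) :
    ∏ l : Fin (k + 1), g (side k L M l) = g L ^ k * g M := by
  rw [Fin.prod_univ_castSucc]
  have h1 : ∀ i : Fin k, g (side k L M i.castSucc) = g L := by
    intro i
    unfold side
    rw [if_neg]
    have := i.isLt
    simp only [Fin.val_castSucc]
    omega
  have h2 : side k L M (Fin.last k) = M := by
    unfold side
    simp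
  rw [h2]
  simp only [h1]
  simp

/-- the box of polynomials -/
noncomputable def box (k L M : ℕ) : Finset ℤ[X] :=
  (Fintype.piFinset (fun l : Fin (k + 1) => Finset.Ico (0 : ℤ) (side k L M l))).map
    ⟨toPoly, toPoly_inj⟩

lemma mem_box {k L M : ℕ} (x : Fin (k + 1) → ℤ) :
    toPoly x ∈ box k L M ↔ ∀ l, 0 ≤ x l ∧ x l < side k L M l := by
  unfold box
  rw [mem_map]
  constructor
  · rintro ⟨y, hy, h⟩
    have hxy : y = x := toPoly_inj h
    subst hxy
    intro l
    exact mem_Ico.1 (Fintype.mem_piFinset.1 hy l)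
  · intro h
    exact ⟨x, Fintype.mem_piFinset.2 (fun l => mem_Ico.2 (h l)), rfl⟩

lemma natDegree_of_mem_box {k L M : ℕ} {P : ℤ[X]} (h : P ∈ box k L M) : P.natDegree ≤ k := by
  unfold box at h
  rw [mem_map] at h
  obtain ⟨x, _, rfl⟩ := h
  exact natDegree_toPoly x

lemma card_box (k L M : ℕ) : (box k L M).card = L ^ k * M := by
  unfold box
  rw [card_map, Fintype.card_piFinset]
  simp only [Int.card_Ico, sub_zero, Int.toNat_natCast]
  exact prod_side k (fun x => x) L M

lemma box_mono (k L : ℕ) {M M' : ℕ} (h : M ≤ M') : box k L M ⊆ box k L M' := by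
  intro P hP
  have hd := natDegree_of_mem_box hP
  rw [← toPoly_coeff P hd] at hP ⊢
  rw [mem_box] at hP ⊢
  intro l
  refine ⟨(hP l).1, lt_of_lt_of_le (hP l).2 ?_⟩
  unfold side
  split_ifs
  · exact_mod_cast h
  · exact le_refl _

/-- many polynomials of the box stay in the box after adding `Q k S` -/
lemma box_shift (k L M : ℕ) (S : Finset ℕ) :
    (L - 2 * (k + 1).factorial) ^ k * (M - 2 * (k + 1).factorial)
      ≤ ((box k L M).filter (fun P => P + Q k S ∈ box k L M)).card := by
  set B : ℕ := (k + 1).factorial with hB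
  set inner : Finset ℤ[X] :=
    (Fintype.piFinset (fun l : Fin (k + 1) =>
      Finset.Ico (B : ℤ) ((side k L M l : ℤ) - B))).map ⟨toPoly, toPoly_inj⟩ with hinner
  have h1 : inner ⊆ (box k L M).filter (fun P => P + Q k S ∈ box k L M) := by
    intro P hP
    rw [hinner, mem_map] at hP
    obtain ⟨x, hx, rfl⟩ := hP
    have hx' : ∀ l, (B : ℤ) ≤ x l ∧ x l < (side k L M l : ℤ) - B := fun l =>
      mem_Ico.1 (Fintype.mem_piFinset.1 hx l)
    have hB0 : (0 : ℤ) ≤ B := by positivity
    rw [mem_filter]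
    constructor
    · show toPoly x ∈ _
      rw [mem_box]
      intro l
      have := hx' l
      constructor <;> linarith [this.1, this.2]
    · show toPoly x + Q k S ∈ _
      have hQ : Q k S = toPoly (fun l : Fin (k + 1) => (Q k S).coeff l) :=
        (toPoly_coeff _ (le_of_eq (Q_natDegree k S))).symm
      rw [hQ, ← toPoly_add, mem_box]
      intro l
      have h2 := hx' l
      have h3 := abs_le.1 (Q_coeff_abs k S l)
      rw [Pi.add_apply]
      rw [← hB] at h3
      constructor <;> linarith [h2.1, h2.2, h3.1, h3.2]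
  have h2 : inner.card = (L - 2 * B) ^ k * (M - 2 * B) := by
    rw [hinner, card_map, Fintype.card_piFinset]
    simp only [Int.card_Ico]
    rw [← prod_side k (fun x => x - 2 * B) L M]
    apply prod_congr rfl
    intro l _
    omega
  rw [← h2]
  exact card_le_card h1

/-- the number of edges obtained from a finite family of polynomials is less than `f n` -/
theorem sum_lt_f {n k : ℕ} (V : Finset ℤ[X]) (hn : V.card = n)
    (hdeg : ∀ P ∈ V, P.natDegree ≤ k) :
    ∑ S ∈ (range k).powerset, (V.filter (fun P => P + Q k S ∈ V)).card < f n := by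
  classical
  set eqv := V.equivFinOfCardEq hn with heqv
  set val : Fin n → ℤ[X] := fun i => (eqv.symm i : ℤ[X]) with hval
  have hvalinj : Function.Injective val := fun i j h =>
    eqv.symm.injective (Subtype.ext h)
  have hV : ∀ P, P ∈ V ↔ ∃ i, val i = P := by
    intro P
    constructor
    · intro hP
      refine ⟨eqv ⟨P, hP⟩, ?_⟩
      simp only [hval, Equiv.symm_apply_apply]
    · rintro ⟨i, rfl⟩
      exact (eqv.symm i).2
  obtain ⟨t, ht⟩ := exists_generic ((V ×ˢ V).image (fun x => x.1 - x.2))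
  have hinj : Function.Injective (fun i => pos k t (val i)) := by
    intro i j hij
    by_contra hne
    have h1 : val i - val j ≠ 0 := by
      rw [sub_ne_zero]
      exact fun h => hne (hvalinj h)
    have h2 := ht (val i - val j) (mem_image.2 ⟨(val i, val j),
      mem_product.2 ⟨(hV _).2 ⟨i, rfl⟩, (hV _).2 ⟨j, rfl⟩⟩, rfl⟩) h1
    apply h2
    rw [ev_sub, sub_eq_zero]
    simp only [pos] at hij
    exact (div_left_inj' (ev_Q_ne t k)).1 hij
  have hdeg' : ∀ i, (val i).natDegree ≤ k := fun i => hdeg _ ((hV _).2 ⟨i, rfl⟩)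
  have h1 := edge_count (k := k) val hvalinj V hV
  have h2 := lt_f_of (udg k val t hinj) (fun H hH => not_rigid val hdeg' t hinj H hH)
  exact lt_of_le_of_lt h1 h2

/-- the explicit lower bound -/
theorem f_lower (n k : ℕ) (hn : (4 * (k + 1) * (k + 1).factorial) ^ (k + 1) ≤ n) :
    (2 : ℝ) ^ k * n / 4 < f n := by
  set B : ℕ := (k + 1).factorial with hB
  set L : ℕ := 4 * (k + 1) * B with hL
  have hBpos : 0 < B := Nat.factorial_pos _
  have hLpos : 0 < L := by rw [hL]; positivity
  have hLk : 0 < L ^ k := pow_pos hLpos k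
  set M : ℕ := n / L ^ k with hM
  have hML : L ≤ M := by
    rw [hM, Nat.le_div_iff_mul_le hLk, mul_comm, ← pow_succ]
    exact hn
  have h1 : L ^ k * M ≤ n := Nat.mul_div_le n (L ^ k)
  have h2 : n < L ^ k * (M + 1) := by
    rw [mul_comm]; exact Nat.lt_mul_of_div_lt (Nat.lt_succ_self _) hLk
  obtain ⟨V, hV1, hV2, hV3⟩ := Finset.exists_subsuperset_card_eq (n := n)
    (box_mono k L (Nat.le_succ M)) (by rw [card_box]; exact h1)
    (by rw [card_box]; exact h2.le)
  have h3 := sum_lt_f V hV3 (fun P hP => natDegree_of_mem_box (hV2 hP))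
  have h4 : ∀ S ∈ (range k).powerset,
      (L - 2 * B) ^ k * (M - 2 * B) ≤ (V.filter (fun P => P + Q k S ∈ V)).card := by
    intro S _
    refine (box_shift k L M S).trans (card_le_card ?_)
    intro P hP
    rw [mem_filter] at hP ⊢
    exact ⟨hV1 hP.1, hV1 hP.2⟩
  have h5 := Finset.card_nsmul_le_sum _ _ _ h4
  rw [card_powerset, card_range, smul_eq_mul] at h5
  have h6 : (((2 ^ k * ((L - 2 * B) ^ k * (M - 2 * B)) : ℕ)) : ℝ) < f n := by
    exact_mod_cast lt_of_le_of_lt h5 h3
  have hL2 : 2 * B ≤ L := by rw [hL]; nlinarith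
  have hM2 : 2 * B ≤ M := hL2.trans hML
  push_cast [Nat.cast_sub hL2, Nat.cast_sub hM2] at h6
  refine lt_of_le_of_lt ?_ h6
  -- real estimates
  have hLr : (0 : ℝ) < L := by exact_mod_cast hLpos
  have hMr : (L : ℝ) ≤ M := by exact_mod_cast hML
  have hMpos : (0 : ℝ) < M := lt_of_lt_of_le hLr hMr
  have hBr : (0 : ℝ) < B := by exact_mod_cast hBpos
  have hLeq : (L : ℝ) = 4 * (k + 1) * B := by rw [hL]; push_cast; ring
  set x : ℝ := 2 * B / L with hx
  have hx0 : 0 < x := by positivity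
  have hxk : x * (k + 1) = 1 / 2 := by
    rw [hx, hLeq]
    field_simp
    ring
  have hx1 : x ≤ 1 := by
    have : (1 : ℝ) ≤ (k : ℝ) + 1 := by
      have : (0 : ℝ) ≤ k := Nat.cast_nonneg k
      linarith
    nlinarith
  have hbern : (1 : ℝ) / 2 ≤ (1 - x) ^ (k + 1) := by
    have := one_add_mul_le_pow (a := -x) (by linarith) (k + 1)
    have h7 : (1 : ℝ) + ((k + 1 : ℕ) : ℝ) * (-x) = 1 / 2 := by
      push_cast
      linarith
    rw [h7] at this
    have h8 : (1 : ℝ) + -x = 1 - x := by ring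
    rwa [h8] at this
  have e1 : ((L : ℝ) - 2 * B) = L * (1 - x) := by
    rw [hx]; field_simp
  have e2 : (M : ℝ) * (1 - x) ≤ (M : ℝ) - 2 * B := by
    have : (M : ℝ) * x ≥ 2 * B := by
      rw [hx]
      rw [ge_iff_le, ← mul_div_assoc, le_div_iff₀ hLr]
      nlinarith
    linarith
  have h1x : 0 ≤ 1 - x := by linarith
  have e3 : (L : ℝ) ^ k * M / 2 ≤ ((L : ℝ) - 2 * B) ^ k * ((M : ℝ) - 2 * B) := by
    rw [e1, mul_pow]
    calc (L : ℝ) ^ k * M / 2 = (L : ℝ) ^ k * M * (1 / 2) := by ring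
      _ ≤ (L : ℝ) ^ k * M * (1 - x) ^ (k + 1) := by
          apply mul_le_mul_of_nonneg_left hbern
          positivity
      _ = (L : ℝ) ^ k * (1 - x) ^ k * (M * (1 - x)) := by ring
      _ ≤ (L : ℝ) ^ k * (1 - x) ^ k * ((M : ℝ) - 2 * B) := by
          apply mul_le_mul_of_nonneg_left e2
          exact mul_nonneg (by positivity) (pow_nonneg h1x k)
  have h2r : (n : ℝ) ≤ L ^ k * (M + 1) := by exact_mod_cast h2.le
  have hM1 : (1 : ℝ) ≤ M := by
    have : 1 ≤ M := by
      have : 1 ≤ L := hLpos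
      omega
    exact_mod_cast this
  have hLkr : (0 : ℝ) < (L : ℝ) ^ k := by positivity
  have e4 : (n : ℝ) ≤ 2 * ((L : ℝ) ^ k * M) := by nlinarith
  have h2k : (0 : ℝ) < 2 ^ k := by positivity
  calc (2 : ℝ) ^ k * n / 4 ≤ 2 ^ k * ((L : ℝ) ^ k * M / 2) := by
        have : (n : ℝ) / 4 ≤ (L : ℝ) ^ k * M / 2 := by linarith
        calc (2 : ℝ) ^ k * n / 4 = 2 ^ k * (n / 4) := by ring
          _ ≤ _ := mul_le_mul_of_nonneg_left this h2k.le
    _ ≤ 2 ^ k * (((L : ℝ) - 2 * B) ^ k * ((M : ℝ) - 2 * B)) :=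
        mul_le_mul_of_nonneg_left e3 h2k.le

end Pool.H60.Flex
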