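import Mathlib

set_option autoImplicit false

/-!
# Unit distance graphs, rigid subgraphs and the function `f`
-/

namespace Pool.H60.Flex

/-- A unit distance graph on `n` vertices: a simple graph on `Fin n` together with distinct
points of the Euclidean plane, adjacent vertices being placed at distance `1`
(not every pair at distance `1` needs to be an edge). -/
structure UnitDistGraph (n : ℕ) where
  /-- the graph -/
  G : SimpleGraph (Fin n)
  /-- the points -/
  p : Fin n → EuclideanSpace ℝ (Fin 2)
  inj : Function.Injective p
  unit : ∀ i j, G.Adj i j → dist (p i) (p j) = 1

/-- A subgraph `H`, placed at the same points, is rigid if every continuous motion of its vertices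
in the plane that keeps the length of every edge of `H` constant keeps the distance between every
pair of vertices of `H` constant. -/
def UnitDistGraph.IsRigid {n : ℕ} (U : UnitDistGraph n) (H : U.G.Subgraph) : Prop :=
  ∀ q : unitInterval → H.verts → EuclideanSpace ℝ (Fin 2), Continuous q →
    (∀ v : H.verts, q 0 v = U.p v) →
    (∀ (s : unitInterval) (v w : H.verts), H.Adj v w →
      dist (q s v) (q s w) = dist (U.p v) (U.p w)) →
    ∀ (s : unitInterval) (v w : H.verts), dist (q s v) (q s w) = dist (U.p v) (U.p w)

/-- `f n` is the least `m` such that every unit distance graph on `n` vertices with at least `m`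
edges has a rigid subgraph with at least three vertices. -/
noncomputable def f (n : ℕ) : ℕ :=
  sInf {m : ℕ | ∀ U : UnitDistGraph n, m ≤ U.G.edgeSet.ncard →
    ∃ H : U.G.Subgraph, 3 ≤ H.verts.ncard ∧ U.IsRigid H}

end Pool.H60.Flex
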