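import Pool.Agent.H60.FlexPoly
import Pool.Agent.H60.FlexDefs

set_option autoImplicit false

/-!
# Unit distance graphs without non-trivial rigid subgraphs
-/

open Polynomial Finset

namespace Pool.H60.Flex

lemma lt_f_of {n : ℕ} (U : UnitDistGraph n)
    (hU : ∀ H : U.G.Subgraph, 3 ≤ H.verts.ncard → ¬ U.IsRigid H) :
    U.G.edgeSet.ncard < f n := by
  have hne : {m : ℕ | ∀ U : UnitDistGraph n, m ≤ U.G.edgeSet.ncard →
    ∃ H : U.G.Subgraph, 3 ≤ H.verts.ncard ∧ U.IsRigid H}.Nonempty := by
    refine ⟨(Set.univ : Set (Sym2 (Fin n))).ncard + 1, ?_⟩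
    intro W hW
    exfalso
    have := Set.ncard_le_ncard (Set.subset_univ W.G.edgeSet) (Set.toFinite _)
    omega
  have hmem := Nat.sInf_mem hne
  by_contra hcon
  rw [not_lt] at hcon
  obtain ⟨H, h1, h2⟩ := hmem U hcon
  exact hU H h1 h2

/-- the isometry between `ℂ` and the Euclidean plane -/
noncomputable def φ : ℂ ≃ₗᵢ[ℝ] EuclideanSpace ℝ (Fin 2) := Complex.orthonormalBasisOneI.repr

lemma dist_φ (z w : ℂ) : dist (φ z) (φ w) = dist z w := φ.dist_map z w

section build

variable {n k : ℕ}

/-- the graph on the index set of a family of polynomials -/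
def graph (k : ℕ) (val : Fin n → ℤ[X]) : SimpleGraph (Fin n) where
  Adj i j := ∃ S ∈ (range k).powerset, val i - val j = Q k S ∨ val j - val i = Q k S
  symm := ⟨by
    rintro i j ⟨S, hS, h⟩
    exact ⟨S, hS, h.symm⟩⟩
  loopless := ⟨by
    rintro i ⟨S, hS, h⟩
    have h0 : Q k S ≠ 0 := (Q_monic k S).ne_zero
    rcases h with h | h <;> rw [sub_self] at h <;> exact h0 h.symm⟩

/-- the unit distance graph -/
noncomputable def udg (k : ℕ) (val : Fin n → ℤ[X]) (t : ℝ)
    (hinj : Function.Injective (fun i => pos k t (val i))) : UnitDistGraph n where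
  G := graph k val
  p i := φ (pos k t (val i))
  inj := fun i j h => hinj (φ.injective h)
  unit := by
    rintro i j ⟨S, hS, h⟩
    rw [dist_φ]
    rcases h with h | h
    · exact dist_pos_of_eq k t h
    · rw [dist_comm]; exact dist_pos_of_eq k t h

lemma edge_count (val : Fin n → ℤ[X]) (hval : Function.Injective val) (V : Finset ℤ[X])
    (hV : ∀ P, P ∈ V ↔ ∃ i, val i = P) :
    ∑ S ∈ (range k).powerset, (V.filter (fun P => P + Q k S ∈ V)).card
      ≤ (graph k val).edgeSet.ncard := by
  classical
  set F : Finset (Finset ℕ × ℤ[X]) :=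
    ((range k).powerset ×ˢ V).filter (fun x => x.2 + Q k x.1 ∈ V) with hF
  have hcard : ∑ S ∈ (range k).powerset, (V.filter (fun P => P + Q k S ∈ V)).card = F.card := by
    rw [hF, card_filter, sum_product]
    apply sum_congr rfl
    intro S _
    rw [card_filter]
  rw [hcard]
  set g : Finset ℕ × ℤ[X] → Sym2 ℤ[X] := fun x => s(x.2, x.2 + Q k x.1) with hg
  have hginj : Set.InjOn g (F : Set (Finset ℕ × ℤ[X])) := by
    rintro ⟨S, P⟩ h1 ⟨T, R⟩ h2 h
    rw [mem_coe, hF, mem_filter, mem_product, mem_powerset] at h1 h2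
    simp only [hg, Sym2.eq_iff] at h
    rcases h with ⟨h3, h4⟩ | ⟨h3, h4⟩
    · subst h3
      have h5 := add_left_cancel h4
      have h6 : S = T := Q_inj k h1.1.1 h2.1.1 h5
      rw [h6]
    · exfalso
      rw [h3] at h4
      have h5 : Q k T + Q k S = 0 := by
        have : R + (Q k T + Q k S) = R + 0 := by rw [add_zero, ← add_assoc]; exact h4
        exact add_left_cancel this
      have h6 := congrArg (fun P : ℤ[X] => P.coeff k) h5
      simp only [coeff_add, Q_coeff_top, coeff_zero] at h6
      norm_num at h6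
  have h1 : F.card = (F.image g).card := (card_image_of_injOn hginj).symm
  have h2 : ((F.image g : Finset (Sym2 ℤ[X])) : Set (Sym2 ℤ[X]))
      ⊆ Sym2.map val '' (graph k val).edgeSet := by
    intro e he
    rw [mem_coe, mem_image] at he
    obtain ⟨⟨S, P⟩, hx, rfl⟩ := he
    rw [hF, mem_filter, mem_product] at hx
    obtain ⟨⟨hS, hP⟩, hPQ⟩ := hx
    simp only at hS hP hPQ
    obtain ⟨i, hi⟩ := (hV _).1 hP
    obtain ⟨j, hj⟩ := (hV _).1 hPQ
    refine ⟨s(i, j), ?_, ?_⟩
    · rw [SimpleGraph.mem_edgeSet]
      refine ⟨S, hS, Or.inr ?_⟩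
      rw [hi, hj]; ring
    · rw [Sym2.map_mk, hi, hj]
  rw [h1, ← Set.ncard_coe_finset]
  calc ((F.image g : Finset (Sym2 ℤ[X])) : Set (Sym2 ℤ[X])).ncard
      ≤ (Sym2.map val '' (graph k val).edgeSet).ncard :=
        Set.ncard_le_ncard h2 ((Set.toFinite _).image _)
    _ = (graph k val).edgeSet.ncard :=
        Set.ncard_image_of_injective _ (Sym2.map.injective hval)

/-- no rigid subgraph with at least three vertices -/
theorem not_rigid (val : Fin n → ℤ[X]) (hdeg : ∀ i, (val i).natDegree ≤ k) (t : ℝ)
    (hinj : Function.Injective (fun i => pos k t (val i)))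
    (H : (udg k val t hinj).G.Subgraph) (hH : 3 ≤ H.verts.ncard) :
    ¬ (udg k val t hinj).IsRigid H := by
  classical
  intro hrig
  have hUp : ∀ i, (udg k val t hinj).p i = φ (pos k t (val i)) := fun i => rfl
  have hfin : H.verts.Finite := Set.toFinite _
  have hne : H.verts.Nonempty := by
    rw [← Set.ncard_pos hfin]; omega
  obtain ⟨m, hm, hmax⟩ := Set.exists_max_image H.verts (fun i => (val i).coeff k) hfin hne
  -- neighbours of the top vertex
  have hnb : ∀ j, H.Adj m j → ∃ S ∈ (range k).powerset, val m - val j = Q k S := by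
    intro j hj
    obtain ⟨S, hS, h⟩ := hj.adj_sub
    rcases h with h | h
    · exact ⟨S, hS, h⟩
    · exfalso
      have h1 := congrArg (fun P : ℤ[X] => P.coeff k) h
      simp only [coeff_sub, Q_coeff_top] at h1
      have h2 := hmax j (H.edge_vert hj.symm)
      omega
  by_cases hA : ∃ j j', j ≠ j' ∧ H.Adj m j ∧ H.Adj m j'
  · -- the time motion
    obtain ⟨j, j', hjj, h1, h2⟩ := hA
    obtain ⟨S, hS, hS'⟩ := hnb j h1
    obtain ⟨T, hT, hT'⟩ := hnb j' h2
    set R : ℤ[X] := val j - val j' with hR
    have hRQ : R = Q k T - Q k S := by rw [← hS', ← hT', hR]; ring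
    have hkpos : 0 < k := by
      rcases Nat.eq_zero_or_pos k with h0 | h0
      · exfalso
        subst h0
        apply hjj
        apply hinj
        have : val j = val j' := by
          have h3 : val m - val j = val m - val j' := by rw [hS', hT']; simp [Q]
          exact sub_right_injective h3
        simp only [this]
      · exact h0
    have hRdeg : R.natDegree < k := by
      have h3 : R.natDegree ≤ k := by
        rw [hRQ]
        exact (natDegree_sub_le _ _).trans (by rw [Q_natDegree, Q_natDegree, max_self])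
      rcases lt_or_eq_of_le h3 with h4 | h4
      · exact h4
      · exfalso
        have h5 : R.coeff k = 0 := by
          rw [hRQ, coeff_sub, Q_coeff_top, Q_coeff_top, sub_self]
        have h6 : R = 0 := by
          rw [← leadingCoeff_eq_zero]
          unfold leadingCoeff
          rw [h4]; exact h5
        rw [h6, natDegree_zero] at h4
        omega
    set δ : ℝ := dist (pos k t (val j)) (pos k t (val j')) with hδ
    have hδpos : 0 < δ := by
      rw [hδ]
      apply _root_.dist_pos.2
      intro h
      exact hjj (hinj h)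
    set C : ℝ := ∑ i ∈ range k, |(R.coeff i : ℝ)| with hC
    have hC0 : 0 ≤ C := sum_nonneg (fun _ _ => abs_nonneg _)
    set T1 : ℝ := C / δ + 1 with hT1
    have hT11 : 1 ≤ T1 := by
      have : 0 ≤ C / δ := div_nonneg hC0 hδpos.le
      linarith
    have hlt : dist (pos k T1 (val j)) (pos k T1 (val j')) < δ := by
      rw [dist_pos, ← hR]
      have hD : 0 < ‖ev T1 (Q k ∅)‖ := norm_pos_iff.2 (ev_Q_ne T1 k)
      have hT1pos : 0 < T1 := by linarith
      rw [div_lt_iff₀ hD]
      have h3 := norm_ev_le T1 hT11 R hRdeg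
      have h4 := norm_ev_Q_ge T1 hT1pos.le k
      have h5 : ‖ev T1 R‖ * T1 ≤ C * ‖ev T1 (Q k ∅)‖ :=
        h3.trans (mul_le_mul_of_nonneg_left h4 hC0)
      have h6 : C < δ * T1 := by
        rw [hT1]
        field_simp
        linarith
      have h7 : ‖ev T1 R‖ * T1 < δ * ‖ev T1 (Q k ∅)‖ * T1 := by
        calc ‖ev T1 R‖ * T1 ≤ C * ‖ev T1 (Q k ∅)‖ := h5
          _ < δ * T1 * ‖ev T1 (Q k ∅)‖ := mul_lt_mul_of_pos_right h6 hD
          _ = δ * ‖ev T1 (Q k ∅)‖ * T1 := by ring
      exact lt_of_mul_lt_mul_right h7 hT1pos.le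
    have hkey := hrig (fun s v => φ (pos k (t + (s : ℝ) * (T1 - t)) (val v))) ?_ ?_ ?_ 1
      ⟨j, H.edge_vert h1.symm⟩ ⟨j', H.edge_vert h2.symm⟩
    · simp only [hUp, dist_φ] at hkey
      have h3 : t + ((1 : unitInterval) : ℝ) * (T1 - t) = T1 := by simp
      rw [h3] at hkey
      rw [hkey] at hlt
      exact lt_irrefl _ hlt
    · apply continuous_pi
      intro v
      exact φ.continuous.comp ((continuous_pos k (val v)).comp (by fun_prop))
    · intro v
      simp only [hUp]
      have h3 : t + ((0 : unitInterval) : ℝ) * (T1 - t) = t := by simp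
      rw [h3]
    · intro s v w hvw
      simp only [hUp, dist_φ]
      obtain ⟨S', hS', h⟩ := hvw.adj_sub
      rcases h with h | h
      · rw [dist_pos_of_eq k _ h, dist_pos_of_eq k _ h]
      · rw [dist_comm, dist_pos_of_eq k _ h, dist_comm, dist_pos_of_eq k _ h]
  · -- the top vertex has at most one neighbour: rotate it
    push Not at hA
    have hw : ∃ w ∈ H.verts, w ≠ m ∧ ∀ j, H.Adj m j → j = w := by
      by_cases h : ∃ j, H.Adj m j
      · obtain ⟨j, hj⟩ := h
        refine ⟨j, H.edge_vert hj.symm, hj.ne.symm, ?_⟩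
        intro j' hj'
        by_contra hne'
        exact hA j j' (fun h => hne' h.symm) hj hj'
      · push Not at h
        have h2 : (H.verts \ {m}).Nonempty := by
          rw [← Set.ncard_pos (hfin.subset Set.sdiff_subset),
            Set.ncard_sdiff_singleton_of_mem hm]
          omega
        obtain ⟨w, hw⟩ := h2
        exact ⟨w, hw.1, hw.2, fun j hj => absurd hj (h j)⟩
    obtain ⟨w, hwH, hwm, hwu⟩ := hw
    have hb : ∃ b ∈ H.verts, b ≠ m ∧ b ≠ w := by
      have h2 : ((H.verts \ {m}) \ {w}).Nonempty := by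
        rw [← Set.ncard_pos ((hfin.subset Set.sdiff_subset).subset Set.sdiff_subset),
          Set.ncard_sdiff_singleton_of_mem (by exact ⟨hwH, hwm⟩),
          Set.ncard_sdiff_singleton_of_mem hm]
        omega
      obtain ⟨b, hb⟩ := h2
      exact ⟨b, hb.1.1, hb.1.2, hb.2⟩
    obtain ⟨b, hbH, hbm, hbw⟩ := hb
    obtain ⟨z, hz⟩ : ∃ z : Fin n → ℂ, z = fun i => pos k t (val i) := ⟨_, rfl⟩
    have hUz : ∀ i, (udg k val t hinj).p i = φ (z i) := fun i => by rw [hz]; rfl
    have hzinj : Function.Injective z := by rw [hz]; exact hinj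
    obtain ⟨rot, hrot⟩ : ∃ rot : ℝ → ℂ, rot = fun θ : ℝ =>
      z w + Complex.exp ((θ : ℂ) * Complex.I) * (z m - z w) := ⟨_, rfl⟩
    have hrotc : Continuous rot := by
      rw [hrot]
      fun_prop
    have hkey := hrig (fun s v => φ (if (v : Fin n) = m then rot (Real.pi * (s : ℝ))
      else z v)) ?_ ?_ ?_
    · have h1 : ∀ θ ∈ Set.Icc (0 : ℝ) Real.pi, dist (rot θ) (z b) = dist (z m) (z b) := by
        intro θ hθ
        have hπ := Real.pi_pos
        have := hkey ⟨θ / Real.pi, div_nonneg hθ.1 hπ.le, (div_le_one hπ).2 hθ.2⟩ ⟨m, hm⟩ ⟨b, hbH⟩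
        simp only [if_true, if_neg hbm, hUz, dist_φ] at this
        have h2 : Real.pi * (θ / Real.pi) = θ := by field_simp
        rw [h2] at this
        exact this
      set a : ℂ := z w - z b with ha
      set c : ℂ := z m - z w with hc
      have hane : a ≠ 0 := by
        rw [ha, sub_ne_zero]
        intro h
        exact hbw (hzinj h.symm)
      have hcne : c ≠ 0 := by
        rw [hc, sub_ne_zero]
        intro h
        exact hwm (hzinj h.symm)
      have hd : ∀ θ ∈ Set.Icc (0 : ℝ) Real.pi,
          Complex.normSq (a + Complex.exp ((θ : ℂ) * Complex.I) * c)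
            = Complex.normSq (a + c) := by
        intro θ hθ
        have h2 := h1 θ hθ
        rw [dist_eq_norm, dist_eq_norm] at h2
        have h3 : rot θ - z b = a + Complex.exp ((θ : ℂ) * Complex.I) * c := by
          rw [hrot, ha, hc]; ring
        have h4 : z m - z b = a + c := by rw [ha, hc]; ring
        rw [h3, h4] at h2
        rw [Complex.normSq_eq_norm_sq, Complex.normSq_eq_norm_sq, h2]
      have e1 := hd Real.pi ⟨Real.pi_pos.le, le_rfl⟩
      have e2 := hd (Real.pi / 2) ⟨by positivity, by linarith [Real.pi_pos]⟩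
      rw [Complex.exp_pi_mul_I] at e1
      have h5 : Complex.exp (((Real.pi / 2 : ℝ) : ℂ) * Complex.I) = Complex.I := by
        rw [Complex.exp_mul_I]
        rw [← Complex.ofReal_cos, ← Complex.ofReal_sin, Real.cos_pi_div_two,
          Real.sin_pi_div_two]
        simp
      rw [h5] at e2
      simp only [Complex.normSq_apply, Complex.add_re, Complex.add_im, Complex.mul_re,
        Complex.mul_im, Complex.neg_re, Complex.neg_im, Complex.one_re, Complex.one_im,
        Complex.I_re, Complex.I_im] at e1 e2
      have h6 : a.re * c.re + a.im * c.im = 0 := by nlinarith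
      have h7 : a.im * c.re - a.re * c.im = 0 := by nlinarith
      have h8 : Complex.normSq a * Complex.normSq c = 0 := by
        rw [Complex.normSq_apply, Complex.normSq_apply]
        have : (a.re * a.re + a.im * a.im) * (c.re * c.re + c.im * c.im)
            = (a.re * c.re + a.im * c.im) ^ 2 + (a.im * c.re - a.re * c.im) ^ 2 := by ring
        rw [this, h6, h7]; ring
      rcases mul_eq_zero.1 h8 with h | h
      · exact hane (Complex.normSq_eq_zero.1 h)
      · exact hcne (Complex.normSq_eq_zero.1 h)
    · apply continuous_pi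
      intro v
      by_cases hv : (v : Fin n) = m
      · simp only [if_pos hv]
        exact φ.continuous.comp (hrotc.comp (by fun_prop))
      · simp only [if_neg hv]
        exact continuous_const
    · intro v
      rw [hUz]
      by_cases hv : (v : Fin n) = m
      · simp only [if_pos hv]
        congr 1
        rw [hrot, hv]
        simp
      · simp only [if_neg hv]
    · intro s v u hvu
      rw [hUz, hUz, dist_φ, dist_φ]
      have hrd : ∀ θ : ℝ, dist (rot θ) (z w) = dist (z m) (z w) := by
        intro θ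
        rw [dist_eq_norm, dist_eq_norm]
        have : rot θ - z w = Complex.exp ((θ : ℂ) * Complex.I) * (z m - z w) := by
          rw [hrot]; ring
        rw [this, norm_mul, Complex.norm_exp_ofReal_mul_I, one_mul]
      by_cases hv : (v : Fin n) = m
      · have hu : (u : Fin n) = w := hwu u (by rw [← hv]; exact hvu)
        have hum : (u : Fin n) ≠ m := by rw [hu]; exact hwm
        rw [if_pos hv, if_neg hum, hu, hv]
        exact hrd _
      · by_cases hu : (u : Fin n) = m
        · have hv' : (v : Fin n) = w := hwu v (by rw [← hu]; exact hvu.symm)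
          rw [if_neg hv, if_pos hu, hv', hu, dist_comm, hrd, dist_comm]
        · rw [if_neg hv, if_neg hu]

end build

end Pool.H60.Flex
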