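import Mathlib

set_option autoImplicit false

/-!
# Integer polynomials with constant modulus ratio on the imaginary axis
-/

open Polynomial Finset

namespace Pool.H60.Flex

/-- the sign-changed linear factors: `j + 1` or `-(j + 1)` -/
def b (S : Finset ℕ) (j : ℕ) : ℤ := if j ∈ S then -((j : ℤ) + 1) else ((j : ℤ) + 1)

/-- the direction polynomials `∏_{j<k} (X ± (j+1))` -/
noncomputable def Q (k : ℕ) (S : Finset ℕ) : ℤ[X] := ∏ j ∈ range k, (X + C (b S j))

lemma Q_monic (k : ℕ) (S : Finset ℕ) : (Q k S).Monic :=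
  monic_prod_of_monic _ _ (fun _ _ => monic_X_add_C _)

lemma Q_natDegree (k : ℕ) (S : Finset ℕ) : (Q k S).natDegree = k := by
  unfold Q
  rw [natDegree_prod_of_monic _ _ (fun _ _ => monic_X_add_C _)]
  simp only [natDegree_X_add_C, sum_const, card_range, smul_eq_mul, mul_one]

lemma Q_coeff_top (k : ℕ) (S : Finset ℕ) : (Q k S).coeff k = 1 := by
  have h := Q_monic k S
  unfold Monic leadingCoeff at h
  rwa [Q_natDegree] at h

lemma abs_b (S : Finset ℕ) (j : ℕ) : |b S j| = (j : ℤ) + 1 := by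
  unfold b
  have : (0 : ℤ) ≤ (j : ℤ) + 1 := by positivity
  split_ifs
  · rw [abs_neg, abs_of_nonneg this]
  · rw [abs_of_nonneg this]

lemma Q_coeff_abs (k : ℕ) (S : Finset ℕ) (l : ℕ) :
    |(Q k S).coeff l| ≤ ((k + 1).factorial : ℤ) := by
  induction k generalizing l with
  | zero =>
    unfold Q
    simp only [range_zero, prod_empty, coeff_one]
    split_ifs <;> simp
  | succ k ih =>
    have h : Q (k + 1) S = Q k S * (X + C (b S k)) := by
      unfold Q; rw [prod_range_succ]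
    rw [h, mul_add, coeff_add, coeff_mul_C]
    have h1 : |(Q k S * X).coeff l| ≤ ((k + 1).factorial : ℤ) := by
      cases l with
      | zero => simp
      | succ l => rw [coeff_mul_X]; exact ih l
    have h2 : |(Q k S).coeff l * b S k| ≤ ((k + 1).factorial : ℤ) * ((k : ℤ) + 1) := by
      rw [abs_mul, abs_b]
      exact mul_le_mul_of_nonneg_right (ih l) (by positivity)
    have h3 : ((k + 1 + 1).factorial : ℤ) = ((k + 1).factorial : ℤ) * ((k : ℤ) + 1)
        + ((k + 1).factorial : ℤ) := by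
      rw [Nat.factorial_succ (k + 1)]; push_cast; ring
    calc |(Q k S * X).coeff l + (Q k S).coeff l * b S k|
        ≤ |(Q k S * X).coeff l| + |(Q k S).coeff l * b S k| := abs_add_le _ _
      _ ≤ ((k + 1 + 1).factorial : ℤ) := by rw [h3]; linarith

lemma Q_eval_zero_iff (k : ℕ) (S : Finset ℕ) {j : ℕ} (hj : j < k) :
    (Q k S).eval ((j : ℤ) + 1) = 0 ↔ j ∈ S := by
  unfold Q
  rw [eval_prod, prod_eq_zero_iff]
  constructor
  · rintro ⟨i, _, hi0⟩
    simp only [eval_add, eval_X, eval_C] at hi0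
    unfold b at hi0
    split_ifs at hi0 with h
    · have : (j : ℤ) = i := by linarith
      have : j = i := by exact_mod_cast this
      rw [this]; exact h
    · exfalso
      have h1 : (0 : ℤ) ≤ j := by positivity
      have h2 : (0 : ℤ) ≤ i := by positivity
      linarith
  · intro h
    refine ⟨j, mem_range.2 hj, ?_⟩
    simp only [eval_add, eval_X, eval_C]
    unfold b
    rw [if_pos h]
    ring

lemma Q_inj (k : ℕ) {S T : Finset ℕ} (hS : S ⊆ range k) (hT : T ⊆ range k)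
    (h : Q k S = Q k T) : S = T := by
  ext j
  constructor
  · intro hj
    have hjk := mem_range.1 (hS hj)
    rw [← Q_eval_zero_iff k T hjk, ← h, Q_eval_zero_iff k S hjk]
    exact hj
  · intro hj
    have hjk := mem_range.1 (hT hj)
    rw [← Q_eval_zero_iff k S hjk, h, Q_eval_zero_iff k T hjk]
    exact hj

/-- evaluation at `i t` -/
noncomputable def ev (t : ℝ) (P : ℤ[X]) : ℂ := aeval (Complex.I * (t : ℂ)) P

lemma ev_sub (t : ℝ) (P R : ℤ[X]) : ev t (P - R) = ev t P - ev t R := by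
  unfold ev; rw [map_sub]

lemma ev_Q (t : ℝ) (k : ℕ) (S : Finset ℕ) :
    ev t (Q k S) = ∏ j ∈ range k, (Complex.I * (t : ℂ) + ((b S j : ℤ) : ℂ)) := by
  unfold ev Q
  rw [map_prod]
  apply prod_congr rfl
  intro j _
  rw [map_add, aeval_X, aeval_C]
  simp

lemma norm_factor (t : ℝ) (a : ℤ) :
    ‖Complex.I * (t : ℂ) + (a : ℂ)‖ = Real.sqrt ((a : ℝ) ^ 2 + t ^ 2) := by
  rw [Complex.norm_def, Complex.normSq_apply]
  congr 1
  simp
  ring

lemma norm_ev_Q (t : ℝ) (k : ℕ) (S : Finset ℕ) : ‖ev t (Q k S)‖ = ‖ev t (Q k ∅)‖ := by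
  rw [ev_Q, ev_Q, norm_prod, norm_prod]
  apply prod_congr rfl
  intro j _
  rw [norm_factor, norm_factor]
  congr 2
  have h1 := abs_b S j
  have h2 := abs_b ∅ j
  have h3 : |b S j| = |b ∅ j| := h1.trans h2.symm
  have h4 : (b S j) ^ 2 = (b ∅ j) ^ 2 := by
    rw [← sq_abs (b S j), h3, sq_abs]
  exact_mod_cast h4

lemma ev_Q_ne (t : ℝ) (k : ℕ) : ev t (Q k ∅) ≠ 0 := by
  rw [← norm_ne_zero_iff, ev_Q, norm_prod, prod_ne_zero_iff]
  intro j _
  rw [norm_factor]
  apply ne_of_gt
  apply Real.sqrt_pos.2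
  have : (0 : ℝ) < ((b ∅ j : ℤ) : ℝ) ^ 2 := by
    have : b ∅ j = (j : ℤ) + 1 := by simp [b]
    rw [this]
    push_cast
    positivity
  positivity

lemma norm_ev_Q_ge (t : ℝ) (ht : 0 ≤ t) (k : ℕ) : t ^ k ≤ ‖ev t (Q k ∅)‖ := by
  rw [ev_Q, norm_prod]
  calc t ^ k = ∏ _j ∈ range k, t := by simp
    _ ≤ _ := by
      apply prod_le_prod (fun _ _ => ht)
      intro j _
      rw [norm_factor]
      apply Real.le_sqrt_of_sq_le
      nlinarith [sq_nonneg ((b ∅ j : ℤ) : ℝ)]

lemma ev_eq_sum (t : ℝ) (P : ℤ[X]) {k : ℕ} (hP : P.natDegree < k) :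
    ev t P = ∑ i ∈ range k, ((P.coeff i : ℤ) : ℂ) * (Complex.I * (t : ℂ)) ^ i := by
  unfold ev
  rw [aeval_eq_sum_range' hP]
  apply sum_congr rfl
  intro i _
  simp

lemma norm_ev_le (t : ℝ) (ht : 1 ≤ t) (P : ℤ[X]) {k : ℕ} (hP : P.natDegree < k) :
    ‖ev t P‖ * t ≤ (∑ i ∈ range k, |(P.coeff i : ℝ)|) * t ^ k := by
  rw [ev_eq_sum t P hP]
  have h0 : 0 ≤ t := by linarith
  calc ‖∑ i ∈ range k, ((P.coeff i : ℤ) : ℂ) * (Complex.I * (t : ℂ)) ^ i‖ * t
      ≤ (∑ i ∈ range k, ‖((P.coeff i : ℤ) : ℂ) * (Complex.I * (t : ℂ)) ^ i‖) * t :=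
        mul_le_mul_of_nonneg_right (norm_sum_le _ _) h0
    _ = ∑ i ∈ range k, |(P.coeff i : ℝ)| * t ^ (i + 1) := by
        rw [sum_mul]
        apply sum_congr rfl
        intro i _
        rw [norm_mul, norm_pow, norm_mul, Complex.norm_I, one_mul, Complex.norm_real,
          Real.norm_eq_abs, abs_of_nonneg h0]
        rw [pow_succ, ← mul_assoc]
        congr 2
        simp
    _ ≤ ∑ i ∈ range k, |(P.coeff i : ℝ)| * t ^ k := by
        apply sum_le_sum
        intro i hi
        apply mul_le_mul_of_nonneg_left _ (abs_nonneg _)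
        exact pow_le_pow_right₀ ht (mem_range.1 hi)
    _ = _ := by rw [sum_mul]

/-- the position of the polynomial `P` at time `t` -/
noncomputable def pos (k : ℕ) (t : ℝ) (P : ℤ[X]) : ℂ := ev t P / ev t (Q k ∅)

lemma dist_pos (k : ℕ) (t : ℝ) (P R : ℤ[X]) :
    dist (pos k t P) (pos k t R) = ‖ev t (P - R)‖ / ‖ev t (Q k ∅)‖ := by
  unfold pos
  rw [dist_eq_norm, ← sub_div, ← ev_sub, norm_div]

lemma dist_pos_of_eq (k : ℕ) (t : ℝ) {P R : ℤ[X]} {S : Finset ℕ} (h : P - R = Q k S) :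
    dist (pos k t P) (pos k t R) = 1 := by
  rw [dist_pos, h, norm_ev_Q]
  exact div_self (norm_ne_zero_iff.2 (ev_Q_ne t k))

lemma continuous_ev (P : ℤ[X]) : Continuous (fun t : ℝ => ev t P) := by
  unfold ev
  have h1 : Continuous (fun z : ℂ => aeval z P) := by
    have : (fun z : ℂ => aeval z P) = (fun z : ℂ => (P.map (Int.castRingHom ℂ)).eval z) := by
      ext z
      rw [aeval_def, eval_map]
      rfl
    rw [this]
    exact Polynomial.continuous _
  exact h1.comp (by fun_prop)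

lemma continuous_pos (k : ℕ) (P : ℤ[X]) : Continuous (fun t : ℝ => pos k t P) := by
  unfold pos
  exact (continuous_ev P).div (continuous_ev _) (fun t => ev_Q_ne t k)

/-- there is a time at which finitely many polynomials are in distinct positions -/
lemma exists_generic (V : Finset ℤ[X]) : ∃ t : ℝ, ∀ P ∈ V, P ≠ 0 → ev t P ≠ 0 := by
  classical
  set R : ℤ[X] := ∏ P ∈ V.filter (fun P => P ≠ 0), P with hR
  have hR0 : R ≠ 0 := by
    rw [hR, prod_ne_zero_iff]
    intro P hP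
    exact (mem_filter.1 hP).2
  have hR1 : R.map (Int.castRingHom ℂ) ≠ 0 := by
    rw [Ne, Polynomial.map_eq_zero_iff (Int.cast_injective : Function.Injective (Int.castRingHom ℂ))]
    exact hR0
  by_contra hcon
  push Not at hcon
  apply hR1
  apply eq_zero_of_infinite_isRoot
  have hinj : Function.Injective (fun t : ℝ => Complex.I * (t : ℂ)) := by
    intro s t hst
    have := mul_left_cancel₀ Complex.I_ne_zero hst
    exact_mod_cast this
  apply Set.Infinite.mono _ (Set.infinite_range_of_injective hinj)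
  rintro z ⟨t, rfl⟩
  obtain ⟨P, hP, hP0, hev⟩ := hcon t
  show IsRoot _ _
  rw [IsRoot.def, eval_map, ← algebraMap_int_eq, ← aeval_def, hR, map_prod]
  apply prod_eq_zero (mem_filter.2 ⟨hP, hP0⟩)
  exact hev

end Pool.H60.Flex
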