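import Mathlib

set_option autoImplicit false

/-!
# Edge isoperimetry in the transposition graph: the inequality `P k`

For a finite set `A` of permutations, `D A` is the number of ordered pairs of elements of `A`
that differ by a transposition.  We prove, for every `k ≥ 1`,
`k! * D A + k! * |A| ≤ |A|^2 + k! * (k choose 2) * |A|`.
-/

open Finset Equiv

namespace Pool.H60.Transp

variable {α : Type*} [DecidableEq α]

set_option linter.unusedSectionVars false

/-- adjacency in the transposition graph -/
def adj (σ π : Perm α) : Prop := ∃ x y : α, x ≠ y ∧ π = σ * Equiv.swap x y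

open scoped Classical in
/-- `1` if `σ` and `π` differ by a transposition, `0` otherwise. -/
noncomputable def e (σ π : Perm α) : ℕ :=
  if adj σ π then 1 else 0

lemma e_eq (σ π : Perm α) [Decidable (adj σ π)] : e σ π = if adj σ π then 1 else 0 := by
  unfold e
  by_cases h : adj σ π
  · simp [h]
  · simp [h]

lemma adj_symm {σ π : Perm α} (h : adj σ π) : adj π σ := by
  obtain ⟨x, y, hxy, h⟩ := h
  exact ⟨x, y, hxy, by rw [h, mul_assoc, Equiv.swap_mul_self, mul_one]⟩

lemma e_comm (σ π : Perm α) : e σ π = e π σ := by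
  classical
  rw [e_eq, e_eq]
  by_cases h : adj σ π
  · simp [h, adj_symm h]
  · have : ¬ adj π σ := fun h' => h (adj_symm h')
    simp [h, this]

lemma adj_ne {σ π : Perm α} (h : adj σ π) : σ ≠ π := by
  obtain ⟨x, y, hxy, h⟩ := h
  intro hh
  rw [h] at hh
  have h2 : Equiv.swap x y = 1 := by
    have := congrArg (fun z => σ⁻¹ * z) hh
    simpa using this.symm
  rw [Equiv.swap_eq_one_iff] at h2
  exact hxy h2

lemma e_self (σ : Perm α) : e σ σ = 0 := by
  classical
  rw [e_eq]
  have : ¬ adj σ σ := fun h => adj_ne h rfl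
  simp [this]

lemma e_le_one (σ π : Perm α) : e σ π ≤ 1 := by
  classical
  rw [e_eq]; split_ifs <;> simp

lemma adj_eq_of_ne {σ π : Perm α} (h : adj σ π) {p : α} (hp : σ p ≠ π p) :
    π = σ * Equiv.swap p (σ⁻¹ (π p)) := by
  obtain ⟨x, y, hxy, h⟩ := h
  by_cases hx : p = x
  · subst hx
    have : σ⁻¹ (π p) = y := by rw [h]; simp
    rw [this, h]
  · by_cases hy : p = y
    · subst hy
      have : σ⁻¹ (π p) = x := by rw [h]; simp
      rw [this, h, Equiv.swap_comm]
    · exfalso
      apply hp
      rw [h, Perm.mul_apply, Equiv.swap_apply_of_ne_of_ne hx hy]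

/-- number of pairs in `A × B` differing by a transposition -/
noncomputable def cross (A B : Finset (Perm α)) : ℕ := ∑ σ ∈ A, ∑ π ∈ B, e σ π

/-- number of ordered pairs in `A × A` differing by a transposition -/
noncomputable def D (A : Finset (Perm α)) : ℕ := cross A A

lemma cross_comm (A B : Finset (Perm α)) : cross A B = cross B A := by
  unfold cross
  rw [Finset.sum_comm]
  simp_rw [e_comm]

lemma cross_filter_left (A B : Finset (Perm α)) (q : Perm α → Prop) [DecidablePred q] :
    cross A B = cross (A.filter q) B + cross (A.filter (fun σ => ¬ q σ)) B := by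
  unfold cross
  rw [Finset.sum_filter_add_sum_filter_not]

lemma cross_filter_right (A B : Finset (Perm α)) (q : Perm α → Prop) [DecidablePred q] :
    cross A B = cross A (B.filter q) + cross A (B.filter (fun σ => ¬ q σ)) := by
  rw [cross_comm A B, cross_filter_left B A q, cross_comm A, cross_comm A]

lemma D_filter (A : Finset (Perm α)) (q : Perm α → Prop) [DecidablePred q] :
    D A = D (A.filter q) + D (A.filter (fun σ => ¬ q σ))
      + 2 * cross (A.filter (fun σ => ¬ q σ)) (A.filter q) := by
  unfold D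
  rw [cross_filter_left A A q, cross_filter_right (A.filter q) A q,
    cross_filter_right (A.filter (fun σ => ¬ q σ)) A q,
    cross_comm (A.filter q) (A.filter (fun σ => ¬ q σ))]
  ring

lemma cross_class_le (A : Finset (Perm α)) (p v : α) :
    cross (A.filter (fun σ => ¬ σ p = v)) (A.filter (fun σ => σ p = v))
      ≤ (A.filter (fun σ => ¬ σ p = v)).card := by
  classical
  unfold cross
  rw [Finset.card_eq_sum_ones]
  apply Finset.sum_le_sum
  intro σ hσ
  have hσ' : σ p ≠ v := (Finset.mem_filter.1 hσ).2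
  calc ∑ π ∈ A.filter (fun σ => σ p = v), e σ π
      ≤ ∑ π ∈ A.filter (fun σ => σ p = v),
          (if π = σ * Equiv.swap p (σ⁻¹ v) then 1 else 0) := by
        apply Finset.sum_le_sum
        intro π hπ
        have hπ' : π p = v := (Finset.mem_filter.1 hπ).2
        rw [e_eq]
        by_cases h : adj σ π
        · have := adj_eq_of_ne h (p := p) (by rw [hπ']; exact hσ')
          rw [hπ'] at this
          rw [if_pos h, if_pos this]
        · simp [h]
    _ ≤ 1 := by
        rw [Finset.sum_ite_eq']
        split_ifs <;> simp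

/-- the single splitting inequality -/
lemma D_split (A : Finset (Perm α)) (p v : α) :
    D A ≤ D (A.filter (fun σ => σ p = v)) + D (A.filter (fun σ => ¬ σ p = v))
      + 2 * (A.filter (fun σ => ¬ σ p = v)).card := by
  rw [D_filter A (fun σ => σ p = v)]
  have := cross_class_le A p v
  omega

lemma D_le (A : Finset (Perm α)) : D A + A.card ≤ A.card ^ 2 := by
  classical
  unfold D cross
  have : ∀ σ ∈ A, ∑ π ∈ A, e σ π + 1 ≤ A.card := by
    intro σ hσ
    rw [← Finset.sum_erase_add A _ hσ, e_self, add_zero]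
    have h1 : ∑ π ∈ A.erase σ, e σ π ≤ ∑ π ∈ A.erase σ, 1 :=
      Finset.sum_le_sum (fun π _ => e_le_one σ π)
    rw [← Finset.card_eq_sum_ones, Finset.card_erase_of_mem hσ] at h1
    have : 0 < A.card := Finset.card_pos.2 ⟨σ, hσ⟩
    omega
  have h2 := Finset.sum_le_sum this
  rw [Finset.sum_add_distrib, Finset.sum_const, Finset.sum_const, smul_eq_mul, smul_eq_mul,
    mul_one] at h2
  rw [pow_two]
  exact h2


section Fin

variable [Fintype α]

/-- the positions at which the permutations in `A` do not all agree -/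
def N (A : Finset (Perm α)) : Finset α :=
  univ.filter (fun p => ∃ σ ∈ A, ∃ π ∈ A, σ p ≠ π p)

lemma filter_ne_swap (σ : Perm α) {x y : α} (hxy : x ≠ y) :
    univ.filter (fun p => σ p ≠ (σ * Equiv.swap x y) p) = {x, y} := by
  ext p
  simp only [mem_filter, mem_univ, true_and, mem_insert, mem_singleton, Perm.mul_apply, ne_eq,
    EmbeddingLike.apply_eq_iff_eq]
  constructor
  · intro h
    by_contra hp
    push Not at hp
    exact h (Equiv.swap_apply_of_ne_of_ne hp.1 hp.2).symm
  · rintro (h | h)
    · subst h; rw [Equiv.swap_apply_left]; exact hxy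
    · subst h; rw [Equiv.swap_apply_right]; exact fun h => hxy h.symm

lemma card_filter_ne {σ π : Perm α} (h : adj σ π) :
    (univ.filter (fun p => σ p ≠ π p)).card = 2 := by
  obtain ⟨x, y, hxy, h⟩ := h
  rw [h, filter_ne_swap σ hxy, Finset.card_pair hxy]

lemma sum_D_class (A : Finset (Perm α)) (p : α) :
    ∑ v, D (A.filter (fun σ => σ p = v))
      = ∑ σ ∈ A, ∑ π ∈ A, if σ p = π p then e σ π else 0 := by
  unfold D cross
  have h : ∀ v, ∑ σ ∈ A.filter (fun σ => σ p = v), ∑ π ∈ A.filter (fun σ => σ p = v), e σ π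
      = ∑ σ ∈ A.filter (fun σ => σ p = v), ∑ π ∈ A, if σ p = π p then e σ π else 0 := by
    intro v
    apply Finset.sum_congr rfl
    intro σ hσ
    have hσ' : σ p = v := (Finset.mem_filter.1 hσ).2
    rw [Finset.sum_filter, hσ']
    apply Finset.sum_congr rfl
    intro π _
    simp [eq_comm]
  simp_rw [h]
  exact Finset.sum_fiberwise A (fun σ => σ p)
    (fun σ => ∑ π ∈ A, if σ p = π p then e σ π else 0)

/-- the averaging identity -/
lemma averaging (A : Finset (Perm α)) :
    ∑ p ∈ N A, ∑ v, D (A.filter (fun σ => σ p = v)) + 2 * D A = (N A).card * D A := by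
  simp_rw [sum_D_class]
  rw [Finset.sum_comm]
  simp_rw [Finset.sum_comm (s := N A)]
  unfold D cross
  rw [Finset.mul_sum, Finset.mul_sum, ← Finset.sum_add_distrib]
  apply Finset.sum_congr rfl
  intro σ hσ
  rw [Finset.mul_sum, Finset.mul_sum, ← Finset.sum_add_distrib]
  apply Finset.sum_congr rfl
  intro π hπ
  classical
  by_cases h : adj σ π
  · have he : e σ π = 1 := by rw [e_eq, if_pos h]
    rw [he, mul_one, mul_one, Finset.sum_ite, Finset.sum_const_zero, add_zero,
      ← Finset.card_eq_sum_ones]
    have h2 : (N A).filter (fun p => ¬ σ p = π p) = univ.filter (fun p => σ p ≠ π p) := by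
      ext p
      simp only [mem_filter, mem_univ, true_and, ne_eq, and_iff_right_iff_imp]
      intro hp
      simp only [N, mem_filter, mem_univ, true_and]
      exact ⟨σ, hσ, π, hπ, hp⟩
    have h3 := Finset.card_filter_add_card_filter_not (s := N A) (fun p => σ p = π p)
    rw [h2, card_filter_ne h] at h3
    exact h3
  · have he : e σ π = 0 := by rw [e_eq, if_neg h]
    simp [he]

/-- the coset of permutations agreeing with `σ₀` off `M` -/
def coset (M : Finset α) (σ₀ : Perm α) : Finset (Perm α) :=
  univ.filter (fun σ => ∀ q, q ∉ M → σ q = σ₀ q)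

lemma card_coset (M : Finset α) (σ₀ : Perm α) : (coset M σ₀).card = (M.card).factorial := by
  have h1 : coset M σ₀
      = ((univ : Finset (Perm α)).filter (fun f => ∀ a, ¬ a ∈ M → f a = a)).image
          (fun f => σ₀ * f) := by
    ext σ
    simp only [coset, mem_filter, mem_univ, true_and, mem_image]
    constructor
    · intro h
      refine ⟨σ₀⁻¹ * σ, ?_, by simp⟩
      intro a ha
      rw [Perm.mul_apply, h a ha]
      simp
    · rintro ⟨f, hf, rfl⟩ q hq
      rw [Perm.mul_apply, hf q hq]
  rw [h1, Finset.card_image_of_injective _ (mul_right_injective σ₀), ← Fintype.card_subtype]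
  rw [← Fintype.card_congr (Equiv.Perm.subtypeEquivSubtypePerm (fun a => a ∈ M)),
    Fintype.card_perm, Fintype.card_coe]

lemma subset_coset {A : Finset (Perm α)} {σ₀ : Perm α} (h : σ₀ ∈ A) : A ⊆ coset (N A) σ₀ := by
  intro σ hσ
  simp only [coset, mem_filter, mem_univ, true_and]
  intro q hq
  by_contra hne
  apply hq
  simp only [N, mem_filter, mem_univ, true_and]
  exact ⟨σ, hσ, σ₀, h, hne⟩

lemma card_le_factorial (A : Finset (Perm α)) : A.card ≤ ((N A).card).factorial := by
  by_cases h : A.Nonempty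
  · obtain ⟨σ₀, h⟩ := h
    rw [← card_coset (N A) σ₀]
    exact Finset.card_le_card (subset_coset h)
  · rw [Finset.not_nonempty_iff_eq_empty] at h
    subst h
    simp

/-- within a coset, every vertex has degree `|M| choose 2` -/
lemma degree_coset (M : Finset α) (σ₀ : Perm α) {σ : Perm α} (hσ : σ ∈ coset M σ₀) :
    ∑ π ∈ coset M σ₀, e σ π = (M.card).choose 2 := by
  classical
  have h1 : ∑ π ∈ coset M σ₀, e σ π = ((coset M σ₀).filter (fun π => adj σ π)).card := by
    rw [Finset.card_filter]
    apply Finset.sum_congr rfl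
    intro π _
    rw [e_eq]
  rw [h1, ← Finset.card_powersetCard]
  apply Finset.card_bij (fun π _ => univ.filter (fun p => σ p ≠ π p))
  · intro π hπ
    rw [mem_filter] at hπ
    rw [Finset.mem_powersetCard]
    refine ⟨?_, card_filter_ne hπ.2⟩
    intro p hp
    simp only [mem_filter, mem_univ, true_and] at hp
    by_contra hpM
    apply hp
    simp only [coset, mem_filter, mem_univ, true_and] at hσ hπ
    rw [hσ p hpM, hπ.1 p hpM]
  · intro π₁ h₁ π₂ h₂ h
    rw [mem_filter] at h₁ h₂
    obtain ⟨x, y, hxy, h3⟩ := h₁.2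
    obtain ⟨z, w, hzw, h4⟩ := h₂.2
    rw [h3, h4, filter_ne_swap σ hxy, filter_ne_swap σ hzw] at h
    rw [h3, h4]
    have hz : z ∈ ({x, y} : Finset α) := by rw [h]; simp
    have hw : w ∈ ({x, y} : Finset α) := by rw [h]; simp
    simp only [mem_insert, mem_singleton] at hz hw
    rcases hz with rfl | rfl <;> rcases hw with rfl | rfl
    · exact absurd rfl hzw
    · rfl
    · rw [Equiv.swap_comm]
    · exact absurd rfl hzw
  · intro s hs
    rw [Finset.mem_powersetCard, Finset.card_eq_two] at hs
    obtain ⟨hs, x, y, hxy, rfl⟩ := hs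
    refine ⟨σ * Equiv.swap x y, ?_, filter_ne_swap σ hxy⟩
    rw [mem_filter]
    refine ⟨?_, x, y, hxy, rfl⟩
    simp only [coset, mem_filter, mem_univ, true_and] at hσ ⊢
    intro q hq
    rw [Perm.mul_apply, Equiv.swap_apply_of_ne_of_ne, hσ q hq]
    · rintro rfl; exact hq (hs (by simp))
    · rintro rfl; exact hq (hs (by simp))

lemma D_add_cross (M : Finset α) (σ₀ : Perm α) {A : Finset (Perm α)} (hA : A ⊆ coset M σ₀) :
    D A + cross A (coset M σ₀ \ A) = (M.card).choose 2 * A.card := by
  classical
  unfold D cross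
  rw [← Finset.sum_add_distrib]
  rw [mul_comm, Finset.card_eq_sum_ones, Finset.sum_mul]
  apply Finset.sum_congr rfl
  intro σ hσ
  rw [one_mul, ← degree_coset M σ₀ (hA hσ), add_comm, Finset.sum_sdiff hA]

/-- the complement identity -/
lemma D_compl (M : Finset α) (σ₀ : Perm α) {A : Finset (Perm α)} (hA : A ⊆ coset M σ₀) :
    D A + (M.card).choose 2 * (coset M σ₀ \ A).card
      = D (coset M σ₀ \ A) + (M.card).choose 2 * A.card := by
  classical
  have h1 := D_add_cross M σ₀ hA
  have h2 := D_add_cross M σ₀ (A := coset M σ₀ \ A) Finset.sdiff_subset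
  rw [Finset.sdiff_sdiff_eq_self hA, cross_comm] at h2
  omega

end Fin

/-- the inequality `P k` for the set `A` -/
def P (k : ℕ) (A : Finset (Perm α)) : Prop :=
  ((k.factorial : ℕ) : ℝ) * D A + (k.factorial : ℕ) * A.card
    ≤ (A.card : ℝ) ^ 2 + (k.factorial : ℕ) * (k.choose 2 : ℕ) * A.card

lemma P_one (A : Finset (Perm α)) : P 1 A := by
  have h := D_le A
  have h' : (D A : ℝ) + A.card ≤ (A.card : ℝ) ^ 2 := by exact_mod_cast h
  unfold P
  simp only [Nat.factorial_one, Nat.cast_one, one_mul]
  have : Nat.choose 1 2 = 0 := by decide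
  rw [this]
  simpa using h'

lemma choose_succ_two (k : ℕ) : (((k + 1).choose 2 : ℕ) : ℝ) = (k.choose 2 : ℕ) + k := by
  have : (k + 1).choose 2 = k.choose 1 + k.choose 2 := Nat.choose_succ_succ k 1
  rw [this, Nat.choose_one_right]
  push_cast
  ring

lemma choose_two_real (k : ℕ) : ((k.choose 2 : ℕ) : ℝ) = k * (k - 1) / 2 := by
  rw [Nat.cast_choose_two]

lemma factorial_succ_real (k : ℕ) :
    (((k + 1).factorial : ℕ) : ℝ) = (k + 1) * (k.factorial : ℕ) := by
  rw [Nat.factorial_succ]
  push_cast
  ring

/-- `P k` implies `P (k+1)` for sets of size at most `(k+1)!` -/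
lemma P_succ_of_small {k : ℕ} {A : Finset (Perm α)} (h : P k A)
    (hA : A.card ≤ (k + 1).factorial) : P (k + 1) A := by
  unfold P at *
  rw [choose_succ_two, factorial_succ_real]
  have h1 : (A.card : ℝ) ≤ (k + 1) * (k.factorial : ℕ) := by
    rw [← factorial_succ_real]; exact_mod_cast hA
  have h0 : (0 : ℝ) ≤ A.card := Nat.cast_nonneg _
  have hk : (0 : ℝ) ≤ k := Nat.cast_nonneg _
  nlinarith [mul_le_mul_of_nonneg_left h (by linarith : (0 : ℝ) ≤ (k : ℝ) + 1),
    mul_nonneg (mul_nonneg hk h0) (sub_nonneg.2 h1)]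

lemma P_empty (k : ℕ) : P k (∅ : Finset (Perm α)) := by
  unfold P D cross
  simp

/-- splitting off a large class -/
lemma P_of_split {k : ℕ} {A : Finset (Perm α)} (p v : α)
    (h1 : P k (A.filter (fun σ => σ p = v))) (h2 : P k (A.filter (fun σ => ¬ σ p = v)))
    (h3 : k.factorial ≤ (A.filter (fun σ => σ p = v)).card) : P k A := by
  have hs := D_split A p v
  have hc := Finset.card_filter_add_card_filter_not (s := A) (fun σ => σ p = v)
  unfold P at *
  set B := A.filter (fun σ => σ p = v)
  set C := A.filter (fun σ => ¬ σ p = v)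
  have hs' : (D A : ℝ) ≤ D B + D C + 2 * C.card := by exact_mod_cast hs
  have hc' : (A.card : ℝ) = B.card + C.card := by exact_mod_cast hc.symm
  have h3' : ((k.factorial : ℕ) : ℝ) ≤ B.card := by exact_mod_cast h3
  have hf : (0 : ℝ) ≤ (k.factorial : ℕ) := Nat.cast_nonneg _
  have hC : (0 : ℝ) ≤ C.card := Nat.cast_nonneg _
  rw [hc']
  nlinarith [mul_le_mul_of_nonneg_left hs' hf, mul_le_mul_of_nonneg_right h3' hC]

/-- Abel summation -/
lemma abel (w x : ℕ → ℝ) : ∀ n : ℕ, (∀ j, j + 1 < n → w (j + 1) ≤ w j) →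
    (∀ j < n, 0 ≤ w j) → (∀ r, 1 ≤ r → r ≤ n → 0 ≤ ∑ j ∈ range r, x j) →
    0 ≤ ∑ j ∈ range n, w j * x j := by
  intro n hw hw0 hX
  have key : ∀ r, r + 1 ≤ n →
      w r * ∑ j ∈ range (r + 1), x j ≤ ∑ j ∈ range (r + 1), w j * x j := by
    intro r
    induction r with
    | zero => intro _; simp
    | succ r ih =>
      intro hr
      have h1 := ih (by omega)
      rw [Finset.sum_range_succ _ (r + 1), Finset.sum_range_succ _ (r + 1)]
      have h2 := hX (r + 1) (by omega) (by omega)
      have h3 := hw r (by omega)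
      nlinarith [mul_le_mul_of_nonneg_right h3 h2]
  rcases Nat.eq_zero_or_pos n with hn | hn
  · subst hn; simp
  · obtain ⟨r, rfl⟩ := Nat.exists_eq_add_of_le hn
    rw [Nat.add_comm] at *
    exact le_trans (mul_nonneg (hw0 r (by omega)) (hX (r + 1) (by omega) (le_refl _)))
      (key r (le_refl _))


section Main

variable {n : ℕ}

/-- greedy splitting: the class sizes at a position satisfy `(k+1) ∑ a_v^2 ≤ |A|^2` -/
lemma class_sq_le {k : ℕ} (A : Finset (Perm (Fin n))) (p : Fin n)
    (hP0 : ∀ B : Finset (Perm (Fin n)), P k B)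
    (hP1 : ∀ B : Finset (Perm (Fin n)), B.card < A.card → P (k + 1) B)
    (hsmall : ∀ v, (A.filter (fun σ => σ p = v)).card < (k + 1).factorial)
    (hnot : ¬ P (k + 1) A) :
    ((k : ℝ) + 1) * ∑ v, ((A.filter (fun σ => σ p = v)).card : ℝ) ^ 2 ≤ (A.card : ℝ) ^ 2 := by
  set f : Fin n → ℕ := fun v => (A.filter (fun σ => σ p = v)).card with hf
  set s : Perm (Fin n) := Tuple.sort (fun v => OrderDual.toDual (f v)) with hs
  have hmono : Monotone ((fun v => OrderDual.toDual (f v)) ∘ s) := Tuple.monotone_sort _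
  have hanti : ∀ i j : Fin n, i ≤ j → f (s j) ≤ f (s i) := by
    intro i j hij
    exact OrderDual.toDual_le_toDual.1 (hmono hij)
  set ρ : Perm (Fin n) → ℕ := fun σ => (s.symm (σ p)).val with hρ
  set B : ℕ → Finset (Perm (Fin n)) := fun r => A.filter (fun σ => r ≤ ρ σ) with hB
  set C : ℕ → Finset (Perm (Fin n)) := fun r => A.filter (fun σ => ρ σ = r) with hC
  have hρeq : ∀ (σ : Perm (Fin n)) (r : ℕ) (hr : r < n), ρ σ = r ↔ σ p = s ⟨r, hr⟩ := by
    intro σ r hr
    constructor
    · intro h
      have : s.symm (σ p) = ⟨r, hr⟩ := Fin.ext h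
      rw [← this]; simp
    · intro h
      simp only [hρ]
      rw [h]; simp
  have hCf : ∀ (r : ℕ) (hr : r < n), (C r).card = f (s ⟨r, hr⟩) := by
    intro r hr
    simp only [hC, hf]
    congr 1
    ext σ
    rw [mem_filter, mem_filter, hρeq σ r hr]
  have hB1 : ∀ (r : ℕ) (hr : r < n), (B r).filter (fun σ => σ p = s ⟨r, hr⟩) = C r := by
    intro r hr
    ext σ
    simp only [hB, hC, mem_filter]
    rw [← hρeq σ r hr]
    constructor
    · rintro ⟨⟨h1, h2⟩, h3⟩; exact ⟨h1, h3⟩
    · rintro ⟨h1, h3⟩; exact ⟨⟨h1, h3.ge⟩, h3⟩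
  have hB2 : ∀ (r : ℕ) (hr : r < n), (B r).filter (fun σ => ¬ σ p = s ⟨r, hr⟩) = B (r + 1) := by
    intro r hr
    ext σ
    simp only [hB, mem_filter]
    rw [← hρeq σ r hr]
    constructor
    · rintro ⟨⟨h1, h2⟩, h3⟩; exact ⟨h1, by omega⟩
    · rintro ⟨h1, h3⟩; exact ⟨⟨h1, by omega⟩, by omega⟩
  have hstep : ∀ r, r < n → D (B r) ≤ D (C r) + D (B (r + 1)) + 2 * (B (r + 1)).card := by
    intro r hr
    have := D_split (B r) p (s ⟨r, hr⟩)
    rwa [hB1 r hr, hB2 r hr] at this
  have hcard : ∀ r, r < n → (B r).card = (C r).card + (B (r + 1)).card := by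
    intro r hr
    have := Finset.card_filter_add_card_filter_not (s := B r) (fun σ => σ p = s ⟨r, hr⟩)
    rw [hB1 r hr, hB2 r hr] at this
    exact this.symm
  have hB0 : B 0 = A := by
    simp only [hB]
    apply Finset.filter_true_of_mem
    intro σ _
    exact Nat.zero_le _
  have hBn : B n = ∅ := by
    simp only [hB]
    apply Finset.filter_false_of_mem
    intro σ _
    have := (s.symm (σ p)).isLt
    simp only [hρ]
    omega
  -- real versions
  set K : ℝ := (((k + 1).factorial : ℕ) : ℝ) with hK
  set c : ℝ := ((k.choose 2 : ℕ) : ℝ) with hc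
  set m : ℝ := (A.card : ℝ) with hm
  set a : ℕ → ℝ := fun r => (C r).card with ha
  set b : ℕ → ℝ := fun r => (B r).card with hb
  have hKpos : 0 < K := by rw [hK]; exact_mod_cast Nat.factorial_pos _
  have hb0 : b 0 = m := by simp only [hb, hm, hB0]
  have hbn : b n = 0 := by simp only [hb, hBn]; simp
  have hbab : ∀ r, r < n → b r = a r + b (r + 1) := by
    intro r hr
    simp only [hb, ha]
    exact_mod_cast hcard r hr
  have hPk : ∀ r, K * D (C r) + K * a r ≤ (k + 1) * (a r) ^ 2 + K * c * a r := by
    intro r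
    have h := hP0 (C r)
    unfold P at h
    have h2 := mul_le_mul_of_nonneg_left h (by positivity : (0 : ℝ) ≤ (k : ℝ) + 1)
    rw [hK, factorial_succ_real]
    simp only [ha, hc]
    linarith
  have hchain : ∀ r, r ≤ n → K * D A ≤ ∑ j ∈ range r,
      ((k + 1) * (a j) ^ 2 + K * (c - 1) * a j + 2 * K * b (j + 1)) + K * D (B r) := by
    intro r
    induction r with
    | zero => intro _; simp [hB0]
    | succ r ih =>
      intro hr
      have h1 := ih (by omega)
      rw [Finset.sum_range_succ]
      have h2 : (D (B r) : ℝ) ≤ D (C r) + D (B (r + 1)) + 2 * b (r + 1) := by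
        simp only [hb]
        exact_mod_cast hstep r (by omega)
      have h3 := mul_le_mul_of_nonneg_left h2 hKpos.le
      have h4 := hPk r
      linarith
  have hsq : ∀ r, r ≤ n → m ^ 2 = (b r) ^ 2 + ∑ j ∈ range r,
      ((a j) ^ 2 + 2 * a j * b (j + 1)) := by
    intro r
    induction r with
    | zero => intro _; simp [hb0]
    | succ r ih =>
      intro hr
      rw [Finset.sum_range_succ, ih (by omega), hbab r (by omega)]
      ring
  have hsum : ∀ r, r ≤ n → m = b r + ∑ j ∈ range r, a j := by
    intro r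
    induction r with
    | zero => intro _; simp [hb0]
    | succ r ih =>
      intro hr
      have h1 := ih (by omega)
      have h2 := hbab r (by omega)
      rw [Finset.sum_range_succ]
      linarith
  have hanti' : ∀ i j, i ≤ j → j < n → a j ≤ a i := by
    intro i j hij hj
    simp only [ha]
    rw [hCf j hj, hCf i (by omega)]
    exact_mod_cast hanti ⟨i, by omega⟩ ⟨j, hj⟩ hij
  have haK : ∀ j, j < n → a j < K := by
    intro j hj
    simp only [ha, hK]
    rw [hCf j hj]
    exact_mod_cast hsmall (s ⟨j, hj⟩)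
  have ha0 : ∀ j, 0 ≤ a j := by intro j; simp only [ha]; exact Nat.cast_nonneg _
  have hmpos : 0 < m := by
    by_contra h
    have h' : A.card = 0 := by
      have : m ≤ 0 := not_lt.1 h
      have h2 : (A.card : ℝ) ≤ 0 := this
      exact_mod_cast le_antisymm h2 (Nat.cast_nonneg _)
    rw [Finset.card_eq_zero] at h'
    rw [h'] at hnot
    exact hnot (P_empty _)
  have hnpos : 0 < n := by
    rcases Nat.eq_zero_or_pos n with h | h
    · exfalso
      have := hsum 0 (Nat.zero_le _)
      subst h
      rw [hbn] at this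
      simp at this
      linarith
    · exact h
  have ha0pos : 0 < a 0 := by
    by_contra h
    have h1 := hsum n le_rfl
    rw [hbn, zero_add] at h1
    have h2 : ∑ j ∈ range n, a j ≤ ∑ j ∈ range n, (0 : ℝ) := by
      apply Finset.sum_le_sum
      intro j hj
      have := hanti' 0 j (Nat.zero_le _) (mem_range.1 hj)
      linarith
    simp at h2
    linarith
  have hBlt : ∀ r, 1 ≤ r → r ≤ n → (B r).card < A.card := by
    intro r h1 h2
    have h3 : b 1 < m := by
      have := hbab 0 hnpos
      rw [hb0] at this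
      linarith
    have h4 : (B r).card ≤ (B 1).card := by
      apply Finset.card_le_card
      intro σ hσ
      simp only [hB, mem_filter] at hσ ⊢
      exact ⟨hσ.1, by omega⟩
    have h5 : (B 1).card < A.card := by
      simp only [hb, hm] at h3
      exact_mod_cast h3
    omega
  have hX : ∀ r, 1 ≤ r → r ≤ n →
      0 ≤ ∑ j ∈ range r, (K - a j) * (2 * b (j + 1) - k * a j) := by
    intro r h1 h2
    have e1 : ∑ j ∈ range r, (K - a j) * (2 * b (j + 1) - k * a j)
        = ∑ j ∈ range r, ((k + 1) * (a j) ^ 2 + K * (c - 1) * a j + 2 * K * b (j + 1))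
          - ∑ j ∈ range r, ((a j) ^ 2 + 2 * a j * b (j + 1))
          - K * (c + k - 1) * ∑ j ∈ range r, a j := by
      rw [Finset.mul_sum, ← Finset.sum_sub_distrib, ← Finset.sum_sub_distrib]
      apply Finset.sum_congr rfl
      intro j _
      ring
    have h3 := hchain r h2
    have h4 := hsq r h2
    have h5 := hsum r h2
    have h6 := hP1 (B r) (hBlt r h1 h2)
    unfold P at h6 hnot
    rw [choose_succ_two] at h6 hnot
    rw [not_le] at hnot
    have h7 : K * D (B r) + K * b r ≤ (b r) ^ 2 + K * (c + k) * b r := h6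
    have h8 : m ^ 2 + K * (c + k) * m < K * D A + K * m := hnot
    rw [e1]
    have h9 : ∑ j ∈ range r, a j = m - b r := by linarith
    have h10 : ∑ j ∈ range r, ((a j) ^ 2 + 2 * a j * b (j + 1)) = m ^ 2 - (b r) ^ 2 := by
      linarith
    rw [h9, h10]
    nlinarith [h3, h7, h8]
  have habel := abel (fun j => a j / (K - a j))
    (fun j => (K - a j) * (2 * b (j + 1) - k * a j)) n ?_ ?_ hX
  · have e2 : ∑ j ∈ range n, a j / (K - a j) * ((K - a j) * (2 * b (j + 1) - k * a j))
        = ∑ j ∈ range n, ((a j) ^ 2 + 2 * a j * b (j + 1))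
          - (k + 1) * ∑ j ∈ range n, (a j) ^ 2 := by
      rw [Finset.mul_sum, ← Finset.sum_sub_distrib]
      apply Finset.sum_congr rfl
      intro j hj
      have : K - a j ≠ 0 := by
        have := haK j (mem_range.1 hj)
        linarith
      field_simp
      ring
    rw [e2] at habel
    have h4 := hsq n le_rfl
    rw [hbn] at h4
    have e3 : ∑ v, ((f v : ℕ) : ℝ) ^ 2 = ∑ j ∈ range n, (a j) ^ 2 := by
      rw [← Equiv.sum_comp s, ← Fin.sum_univ_eq_sum_range (fun j => (a j) ^ 2) n]
      apply Finset.sum_congr rfl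
      intro i _
      simp only [ha]
      rw [hCf i.val i.isLt]
    have e4 : ∑ v, ((A.filter (fun σ => σ p = v)).card : ℝ) ^ 2 = ∑ v, ((f v : ℕ) : ℝ) ^ 2 := rfl
    rw [e3]
    nlinarith
  · intro j hj
    have h1 := haK j (by omega)
    have h2 := haK (j + 1) hj
    have h3 := hanti' j (j + 1) (by omega) hj
    have h4 := ha0 (j + 1)
    show a (j + 1) / (K - a (j + 1)) ≤ a j / (K - a j)
    rw [div_le_div_iff₀ (by linarith) (by linarith)]
    nlinarith
  · intro j hj
    have h1 := haK j hj
    exact div_nonneg (ha0 j) (by linarith)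


lemma sum_class_card (A : Finset (Perm (Fin n))) (p : Fin n) :
    ∑ v, ((A.filter (fun σ => σ p = v)).card : ℝ) = A.card := by
  have := Finset.card_eq_sum_card_fiberwise (s := A) (t := univ) (f := fun σ => σ p)
    (fun _ _ => Finset.mem_coe.2 (Finset.mem_univ _))
  rw [this]
  push_cast
  rfl

/-- the main induction step -/
lemma P_step {k : ℕ} (hk : 1 ≤ k) (A : Finset (Perm (Fin n)))
    (hP0 : ∀ B : Finset (Perm (Fin n)), P k B)
    (hP1 : ∀ B : Finset (Perm (Fin n)), B.card < A.card → P (k + 1) B) : P (k + 1) A := by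
  by_contra hnot
  have hbig : (k + 1).factorial < A.card := by
    by_contra h
    exact hnot (P_succ_of_small (hP0 A) (not_lt.1 h))
  have hApos : 0 < A.card := lt_of_le_of_lt (Nat.zero_le _) hbig
  obtain ⟨σ₀, hσ₀⟩ := Finset.card_pos.1 hApos
  have hN : k + 2 ≤ (N A).card := by
    by_contra h
    have h1 := card_le_factorial A
    have h2 : ((N A).card).factorial ≤ (k + 1).factorial :=
      Nat.factorial_le (by omega)
    omega
  -- all classes are small
  have hsmall : ∀ p ∈ N A, ∀ v, (A.filter (fun σ => σ p = v)).card < (k + 1).factorial := by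
    intro p hp v
    by_contra h
    rw [not_lt] at h
    have hpos : 0 < (k + 1).factorial := Nat.factorial_pos _
    have hc := Finset.card_filter_add_card_filter_not (s := A) (fun σ => σ p = v)
    apply hnot
    apply P_of_split p v _ _ h
    · apply hP1
      have : 0 < (A.filter (fun σ => ¬ σ p = v)).card := by
        rw [Finset.card_pos]
        simp only [N, mem_filter, mem_univ, true_and] at hp
        obtain ⟨σ, hσ, π, hπ, hne⟩ := hp
        by_cases h1 : σ p = v
        · exact ⟨π, mem_filter.2 ⟨hπ, fun h2 => hne (h1.trans h2.symm)⟩⟩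
        · exact ⟨σ, mem_filter.2 ⟨hσ, h1⟩⟩
      omega
    · apply hP1
      omega
  set K : ℝ := (((k + 1).factorial : ℕ) : ℝ) with hK
  set c : ℝ := ((k.choose 2 : ℕ) : ℝ) with hc
  set m : ℝ := (A.card : ℝ) with hm
  set n' : ℝ := ((N A).card : ℝ) with hn'
  have hKpos : 0 < K := by rw [hK]; exact_mod_cast Nat.factorial_pos _
  have hmK : K < m := by rw [hK, hm]; exact_mod_cast hbig
  have hn2 : (k : ℝ) + 2 ≤ n' := by rw [hn']; exact_mod_cast hN
  have hk1 : (1 : ℝ) ≤ k := by exact_mod_cast hk
  have hc2 : c = k * (k - 1) / 2 := choose_two_real k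
  have hnot' : m ^ 2 + K * (c + k) * m < K * D A + K * m := by
    unfold P at hnot
    rw [choose_succ_two] at hnot
    exact not_le.1 hnot
  -- averaging
  have hav : ∑ p ∈ N A, ∑ v, (D (A.filter (fun σ => σ p = v)) : ℝ) + 2 * D A = n' * D A := by
    rw [hn']
    exact_mod_cast averaging A
  have hPk : ∀ C : Finset (Perm (Fin n)),
      K * D C ≤ (k + 1) * (C.card : ℝ) ^ 2 + K * (c - 1) * C.card := by
    intro C
    have h := hP0 C
    unfold P at h
    have h2 := mul_le_mul_of_nonneg_left h (by positivity : (0 : ℝ) ≤ (k : ℝ) + 1)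
    rw [hK, factorial_succ_real]
    simp only [hc]
    linarith
  have hcl : ∀ p, K * ∑ v, (D (A.filter (fun σ => σ p = v)) : ℝ)
      ≤ (k + 1) * ∑ v, ((A.filter (fun σ => σ p = v)).card : ℝ) ^ 2 + K * (c - 1) * m := by
    intro p
    have h1 : K * ∑ v, (D (A.filter (fun σ => σ p = v)) : ℝ)
        ≤ ∑ v, ((k + 1) * ((A.filter (fun σ => σ p = v)).card : ℝ) ^ 2
          + K * (c - 1) * (A.filter (fun σ => σ p = v)).card) := by
      rw [Finset.mul_sum]
      exact Finset.sum_le_sum (fun v _ => hPk _)
    rw [Finset.sum_add_distrib, ← Finset.mul_sum, ← Finset.mul_sum, sum_class_card] at h1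
    exact h1
  have hSK : ∀ p ∈ N A, ∑ v, ((A.filter (fun σ => σ p = v)).card : ℝ) ^ 2 ≤ K * m := by
    intro p hp
    rw [hm, ← sum_class_card A p, Finset.mul_sum]
    apply Finset.sum_le_sum
    intro v _
    rw [pow_two]
    apply mul_le_mul_of_nonneg_right _ (Nat.cast_nonneg _)
    rw [hK]
    exact_mod_cast (hsmall p hp v).le
  have hSm : ∀ p ∈ N A,
      ((k : ℝ) + 1) * ∑ v, ((A.filter (fun σ => σ p = v)).card : ℝ) ^ 2 ≤ m ^ 2 := by
    intro p hp
    exact class_sq_le A p hP0 hP1 (hsmall p hp) hnot
  -- bound obtained from a uniform bound on the class square sums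
  have hgen : ∀ U : ℝ, (∀ p ∈ N A,
      ((k : ℝ) + 1) * ∑ v, ((A.filter (fun σ => σ p = v)).card : ℝ) ^ 2 ≤ U) →
      (n' - 2) * (K * D A) ≤ n' * (U + K * (c - 1) * m) := by
    intro U hU
    have h1 : ∑ p ∈ N A, K * ∑ v, (D (A.filter (fun σ => σ p = v)) : ℝ)
        ≤ ∑ p ∈ N A, (U + K * (c - 1) * m) := by
      apply Finset.sum_le_sum
      intro p hp
      have := hcl p
      have := hU p hp
      linarith
    rw [← Finset.mul_sum, Finset.sum_const, nsmul_eq_mul] at h1
    have h2 : ∑ p ∈ N A, ∑ v, (D (A.filter (fun σ => σ p = v)) : ℝ) = (n' - 2) * D A := by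
      linarith
    rw [h2] at h1
    linarith
  have hm0 : 0 < m := lt_trans hKpos hmK
  have hn'2 : 0 < n' - 2 := by linarith
  by_cases hA1 : (N A).card = k + 2
  · by_cases hA2 : 2 * A.card ≤ (k + 2).factorial
    · -- averaging with the first bound
      have h1 := hgen (m ^ 2) hSm
      have hn3 : n' = k + 2 := by rw [hn', hA1]; push_cast; ring
      have h2 : 2 * m ≤ (k + 2) * K := by
        have : ((2 * A.card : ℕ) : ℝ) ≤ (((k + 2).factorial : ℕ) : ℝ) := by exact_mod_cast hA2
        rw [factorial_succ_real (k + 1)] at this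
        push_cast at this
        rw [hm, hK]
        linarith
      rw [hn3] at h1
      have h3 : ((k : ℝ) + 2 - 2) * (m ^ 2 + K * (c + k) * m - K * m)
          < (k + 2) * (m ^ 2 + K * (c - 1) * m) := by
        have : (k : ℝ) * (m ^ 2 + K * (c + k) * m - K * m) < k * (K * D A) := by
          apply mul_lt_mul_of_pos_left _ (by linarith)
          linarith
        calc ((k : ℝ) + 2 - 2) * (m ^ 2 + K * (c + k) * m - K * m)
            = (k : ℝ) * (m ^ 2 + K * (c + k) * m - K * m) := by ring
          _ < k * (K * D A) := this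
          _ = ((k : ℝ) + 2 - 2) * (K * D A) := by ring
          _ ≤ _ := h1
      have h4 : ((k : ℝ) + 2 - 2) * (m ^ 2 + K * (c + k) * m - K * m)
          - (k + 2) * (m ^ 2 + K * (c - 1) * m) = m * ((k + 2) * K - 2 * m) := by
        rw [hc2]; ring
      nlinarith [mul_nonneg hm0.le (sub_nonneg.2 h2)]
    · -- complement
      rw [not_le] at hA2
      have hsub := subset_coset hσ₀
      have hcompl := D_compl (N A) σ₀ hsub
      have hcc : (coset (N A) σ₀ \ A).card = (k + 2).factorial - A.card := by
        rw [Finset.card_sdiff_of_subset hsub, card_coset, hA1]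
      have hle : A.card ≤ (k + 2).factorial := by
        have := card_le_factorial A
        rwa [hA1] at this
      have hPc : P (k + 1) (coset (N A) σ₀ \ A) := by
        apply hP1
        rw [hcc]
        omega
      unfold P at hPc
      rw [choose_succ_two] at hPc
      have hcr : (((coset (N A) σ₀ \ A).card : ℕ) : ℝ) = (k + 2) * K - m := by
        rw [hcc, Nat.cast_sub hle, factorial_succ_real (k + 1)]
        rw [hK, hm]
        push_cast
        ring
      have hcompl' : (D A : ℝ) + (((k + 2).choose 2 : ℕ) : ℝ) * ((k + 2) * K - m)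
          = D (coset (N A) σ₀ \ A) + (((k + 2).choose 2 : ℕ) : ℝ) * m := by
        rw [← hcr, hm, ← hA1]
        exact_mod_cast hcompl
      rw [choose_succ_two (k + 1), choose_succ_two k] at hcompl'
      rw [hcr] at hPc
      push_cast at hcompl'
      have h5 : (D (coset (N A) σ₀ \ A) : ℝ)
          = D A + (c + k + (k + 1)) * ((k + 2) * K - m) - (c + k + (k + 1)) * m := by
        rw [hc]
        linarith
      rw [h5] at hPc
      have hPc' : K * (D A + (c + k + (k + 1)) * ((k + 2) * K - m) - (c + k + (k + 1)) * m)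
          + K * ((k + 2) * K - m)
          ≤ ((k + 2) * K - m) ^ 2 + K * (c + k) * ((k + 2) * K - m) := hPc
      have h6 : K * (D A + (c + k + (k + 1)) * ((k + 2) * K - m) - (c + k + (k + 1)) * m)
          + K * ((k + 2) * K - m)
          - (((k + 2) * K - m) ^ 2 + K * (c + k) * ((k + 2) * K - m))
          = K * D A + K * m - (m ^ 2 + K * (c + k) * m) := by
        ring
      linarith
  · have hn3 : (k : ℝ) + 3 ≤ n' := by
      have : k + 3 ≤ (N A).card := by omega
      rw [hn']; exact_mod_cast this
    by_cases hA2 : m ≤ (k + 1) * K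
    · have h1 := hgen (m ^ 2) hSm
      have h3 : (n' - 2) * (m ^ 2 + K * (c + k) * m - K * m)
          < n' * (m ^ 2 + K * (c - 1) * m) := by
        have : (n' - 2) * (m ^ 2 + K * (c + k) * m - K * m) < (n' - 2) * (K * D A) := by
          apply mul_lt_mul_of_pos_left _ hn'2
          linarith
        linarith
      have h4 : (n' - 2) * (m ^ 2 + K * (c + k) * m - K * m)
          - n' * (m ^ 2 + K * (c - 1) * m)
          = m * (2 * ((k + 1) * K - m) + k * K * (n' - (k + 3))) := by
        rw [hc2]; ring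
      have h5 : 0 ≤ m * (2 * ((k + 1) * K - m) + k * K * (n' - (k + 3))) := by
        apply mul_nonneg hm0.le
        have : 0 ≤ k * K * (n' - (k + 3)) :=
          mul_nonneg (mul_nonneg (by linarith) hKpos.le) (by linarith)
        linarith
      linarith
    · rw [not_le] at hA2
      have h1 := hgen ((k + 1) * (K * m)) (fun p hp =>
        mul_le_mul_of_nonneg_left (hSK p hp) (by linarith))
      have h3 : (n' - 2) * (m ^ 2 + K * (c + k) * m - K * m)
          < n' * ((k + 1) * (K * m) + K * (c - 1) * m) := by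
        have : (n' - 2) * (m ^ 2 + K * (c + k) * m - K * m) < (n' - 2) * (K * D A) := by
          apply mul_lt_mul_of_pos_left _ hn'2
          linarith
        linarith
      have h4 : (n' - 2) * (m ^ 2 + K * (c + k) * m - K * m)
          - n' * ((k + 1) * (K * m) + K * (c - 1) * m)
          = m * ((n' - 2) * (m - (k + 1) * K) + k * K * (n' - (k + 3))) := by
        rw [hc2]; ring
      have h5 : 0 ≤ m * ((n' - 2) * (m - (k + 1) * K) + k * K * (n' - (k + 3))) := by
        apply mul_nonneg hm0.le
        have : 0 ≤ k * K * (n' - (k + 3)) :=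
          mul_nonneg (mul_nonneg (by linarith) hKpos.le) (by linarith)
        have : 0 ≤ (n' - 2) * (m - (k + 1) * K) := mul_nonneg hn'2.le (by linarith)
        linarith
      linarith

/-- `P k` holds for all `k ≥ 1` and all sets of permutations -/
theorem P_all : ∀ k : ℕ, 1 ≤ k → ∀ A : Finset (Perm (Fin n)), P k A := by
  intro k
  induction k with
  | zero => intro h; omega
  | succ k ih =>
    intro _ A
    rcases Nat.eq_zero_or_pos k with hk | hk
    · subst hk; exact P_one A
    · induction hm : A.card using Nat.strong_induction_on generalizing A with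
      | _ m ihm =>
        apply P_step hk A (ih hk)
        intro B hB
        exact ihm B.card (by omega) B rfl

end Main

end Pool.H60.Transp
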