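import Pool.Agent.H60.Transp

set_option autoImplicit false

/-!
# Boundary in terms of triples, lexicographic initial segments
-/

open Finset Equiv

namespace Pool.H60.Transp

variable {n : ℕ}

/-- the lexicographic order on permutations of `Fin n` -/
def lexLT (π σ : Perm (Fin n)) : Prop :=
  ∃ j : Fin n, (∀ i : Fin n, i < j → π i = σ i) ∧ π j < σ j

instance : DecidableRel (lexLT (n := n)) := fun π σ => by
  unfold lexLT; infer_instance

/-- the first `m` permutations in lexicographic order -/
def lexInit (n m : ℕ) : Finset (Perm (Fin n)) :=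
  univ.filter (fun σ : Perm (Fin n) =>
    (univ.filter (fun π : Perm (Fin n) =>
      ∃ j : Fin n, (∀ i : Fin n, i < j → π i = σ i) ∧ π j < σ j)).card < m)

/-- the number of edges of the transposition graph with exactly one endpoint in `A` -/
def bd (A : Finset (Perm (Fin n))) : ℕ :=
  ((univ : Finset (Perm (Fin n) × Fin n × Fin n)).filter
    (fun p => p.2.1 < p.2.2 ∧ p.1 ∈ A ∧ p.1 * Equiv.swap p.2.1 p.2.2 ∉ A)).card

/-- the pairs `i < j` -/
def pairs (n : ℕ) : Finset (Fin n × Fin n) := univ.filter (fun p => p.1 < p.2)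

lemma card_pairs_mem (A : Finset (Perm (Fin n))) (σ : Perm (Fin n)) :
    ((pairs n).filter (fun p => σ * Equiv.swap p.1 p.2 ∈ A)).card = ∑ π ∈ A, e σ π := by
  classical
  have h1 : ∑ π ∈ A, e σ π = (A.filter (fun π => adj σ π)).card := by
    rw [Finset.card_filter]
    apply Finset.sum_congr rfl
    intro π _
    rw [e_eq]
  rw [h1]
  apply Finset.card_bij (fun p _ => σ * Equiv.swap p.1 p.2)
  · rintro ⟨i, j⟩ h
    simp only [pairs, mem_filter, mem_univ, true_and] at h ⊢
    exact ⟨h.2, i, j, h.1.ne, rfl⟩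
  · rintro ⟨i, j⟩ h ⟨i', j'⟩ h' heq
    simp only [pairs, mem_filter, mem_univ, true_and] at h h' heq
    have h2 := filter_ne_swap σ h.1.ne
    have h3 := filter_ne_swap σ h'.1.ne
    rw [heq, h3] at h2
    have hi : i' ∈ ({i, j} : Finset (Fin n)) := by rw [← h2]; simp
    have hj : j' ∈ ({i, j} : Finset (Fin n)) := by rw [← h2]; simp
    simp only [mem_insert, mem_singleton] at hi hj
    have h4 := h.1
    have h5 := h'.1
    rcases hi with rfl | rfl <;> rcases hj with rfl | rfl
    · exact absurd h5 (lt_irrefl _)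
    · rfl
    · exact absurd h5 (not_lt.2 h4.le)
    · exact absurd h5 (lt_irrefl _)
  · intro π hπ
    rw [mem_filter] at hπ
    obtain ⟨hπA, x, y, hxy, rfl⟩ := hπ
    rcases lt_or_gt_of_ne hxy with h | h
    · refine ⟨(x, y), ?_, rfl⟩
      simp only [pairs, mem_filter, mem_univ, true_and]
      exact ⟨h, hπA⟩
    · refine ⟨(y, x), ?_, by rw [Equiv.swap_comm]⟩
      simp only [pairs, mem_filter, mem_univ, true_and]
      exact ⟨h, by rw [Equiv.swap_comm]; exact hπA⟩

lemma bd_eq (A : Finset (Perm (Fin n))) :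
    bd A = ∑ σ ∈ A, ((pairs n).filter (fun p => ¬ σ * Equiv.swap p.1 p.2 ∈ A)).card := by
  unfold bd
  have : ((univ : Finset (Perm (Fin n) × Fin n × Fin n)).filter
    (fun p => p.2.1 < p.2.2 ∧ p.1 ∈ A ∧ p.1 * Equiv.swap p.2.1 p.2.2 ∉ A))
    = (A ×ˢ pairs n).filter (fun p => ¬ p.1 * Equiv.swap p.2.1 p.2.2 ∈ A) := by
    ext ⟨σ, i, j⟩
    simp only [pairs, mem_filter, mem_univ, true_and, mem_product]
    tauto
  rw [this, Finset.card_filter, Finset.sum_product]
  apply Finset.sum_congr rfl
  intro σ _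
  rw [Finset.card_filter]

lemma bd_add_D (A : Finset (Perm (Fin n))) : bd A + D A = (pairs n).card * A.card := by
  rw [bd_eq]
  unfold D cross
  rw [← Finset.sum_add_distrib, mul_comm, Finset.card_eq_sum_ones A, Finset.sum_mul]
  apply Finset.sum_congr rfl
  intro σ _
  rw [one_mul, ← card_pairs_mem A σ, add_comm]
  exact Finset.card_filter_add_card_filter_not (s := pairs n)
    (fun p => σ * Equiv.swap p.1 p.2 ∈ A)

lemma card_pairs (n : ℕ) : (pairs n).card = n.choose 2 := by
  have h := card_pairs_mem (n := n) univ 1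
  have h1 : (pairs n).filter (fun p => (1 : Perm (Fin n)) * Equiv.swap p.1 p.2 ∈
      (univ : Finset (Perm (Fin n)))) = pairs n :=
    Finset.filter_true_of_mem (fun _ _ => mem_univ _)
  rw [h1] at h
  rw [h]
  have h2 : coset (univ : Finset (Fin n)) 1 = univ := by
    ext σ
    simp [coset]
  have h3 := degree_coset (univ : Finset (Fin n)) 1 (σ := 1) (by rw [h2]; exact mem_univ _)
  rw [h2] at h3
  rw [h3, Finset.card_univ, Fintype.card_fin]

/-! ### lexicographic order -/

lemma lexLT_irrefl (σ : Perm (Fin n)) : ¬ lexLT σ σ := by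
  rintro ⟨j, _, h⟩
  exact lt_irrefl _ h

lemma lexLT_trans {a b c : Perm (Fin n)} (h1 : lexLT a b) (h2 : lexLT b c) : lexLT a c := by
  obtain ⟨j, hj, hj'⟩ := h1
  obtain ⟨l, hl, hl'⟩ := h2
  rcases lt_trichotomy j l with h | h | h
  · exact ⟨j, fun i hi => (hj i hi).trans (hl i (hi.trans h)), by rw [← hl j h]; exact hj'⟩
  · subst h
    exact ⟨j, fun i hi => (hj i hi).trans (hl i hi), hj'.trans hl'⟩
  · exact ⟨l, fun i hi => (hj i (hi.trans h)).trans (hl i hi), by rw [hj l h]; exact hl'⟩

lemma lexLT_trichotomy (a b : Perm (Fin n)) : lexLT a b ∨ a = b ∨ lexLT b a := by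
  by_cases h : a = b
  · exact Or.inr (Or.inl h)
  · have hne : (univ.filter (fun i => a i ≠ b i)).Nonempty := by
      by_contra hcon
      rw [Finset.not_nonempty_iff_eq_empty] at hcon
      apply h
      ext i
      by_contra hi
      have : i ∈ univ.filter (fun i => a i ≠ b i) := by
        simp only [mem_filter, mem_univ, true_and]
        exact fun h => hi (congrArg Fin.val h)
      rw [hcon] at this
      exact absurd this (Finset.notMem_empty _)
    set j := (univ.filter (fun i => a i ≠ b i)).min' hne with hj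
    have hjm : a j ≠ b j := by
      have := Finset.min'_mem _ hne
      rw [← hj] at this
      exact (Finset.mem_filter.1 this).2
    have hlt : ∀ i, i < j → a i = b i := by
      intro i hi
      by_contra hne'
      have : j ≤ i := Finset.min'_le _ _ (by simp only [mem_filter, mem_univ, true_and]; exact hne')
      exact absurd hi (not_lt.2 this)
    rcases lt_or_gt_of_ne hjm with h1 | h1
    · exact Or.inl ⟨j, hlt, h1⟩
    · exact Or.inr (Or.inr ⟨j, fun i hi => (hlt i hi).symm, h1⟩)

/-- a down-closed set of size `m` is the initial segment of size `m` -/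
lemma lexInit_eq {m : ℕ} (X : Finset (Perm (Fin n))) (hX : X.card = m)
    (hdown : ∀ σ ∈ X, ∀ π, lexLT π σ → π ∈ X) : lexInit n m = X := by
  ext σ
  simp only [lexInit, mem_filter, mem_univ, true_and]
  constructor
  · intro h
    by_contra hσ
    have : X ⊆ univ.filter (fun π : Perm (Fin n) =>
        ∃ j : Fin n, (∀ i : Fin n, i < j → π i = σ i) ∧ π j < σ j) := by
      intro π hπ
      simp only [mem_filter, mem_univ, true_and]
      rcases lexLT_trichotomy π σ with h1 | h1 | h1
      · exact h1
      · subst h1; exact absurd hπ hσ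
      · exact absurd (hdown π hπ σ h1) hσ
    have := Finset.card_le_card this
    omega
  · intro hσ
    rw [← hX]
    apply Finset.card_lt_card
    rw [Finset.ssubset_iff_of_subset]
    · refine ⟨σ, hσ, ?_⟩
      intro h
      exact lexLT_irrefl σ (Finset.mem_filter.1 h).2
    · intro π hπ
      simp only [mem_filter, mem_univ, true_and] at hπ
      exact hdown σ hσ π hπ


/-- the permutations fixing everything before `q` and with `σ q < q + c` -/
def seg (q : Fin n) (c : ℕ) : Finset (Perm (Fin n)) :=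
  univ.filter (fun σ => (∀ i, i < q → σ i = i) ∧ (σ q).val < q.val + c)

lemma le_of_fix {q : Fin n} {σ : Perm (Fin n)} (h : ∀ i, i < q → σ i = i) {z : Fin n}
    (hz : q ≤ z) : q ≤ σ z := by
  by_contra hlt
  rw [not_le] at hlt
  have h1 := h (σ z) hlt
  have h2 : σ z = z := σ.injective h1
  rw [h2] at hlt
  exact absurd hz (not_le.2 hlt)

lemma seg_filter (q : Fin n) (c : ℕ) (v : Fin n) (hv : q ≤ v) (hv' : v.val < q.val + c) :
    (seg q c).filter (fun σ => σ q = v)
      = coset (univ.filter (fun i => q < i)) (Equiv.swap q v) := by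
  ext σ
  simp only [seg, coset, mem_filter, mem_univ, true_and, not_lt]
  constructor
  · rintro ⟨⟨h1, h2⟩, h3⟩ i hi
    rcases lt_or_eq_of_le hi with h | h
    · rw [h1 i h, Equiv.swap_apply_of_ne_of_ne h.ne (lt_of_lt_of_le h hv).ne]
    · subst h; rw [h3, Equiv.swap_apply_left]
  · intro h
    have hq : σ q = v := by rw [h q le_rfl, Equiv.swap_apply_left]
    refine ⟨⟨?_, ?_⟩, hq⟩
    · intro i hi
      rw [h i hi.le, Equiv.swap_apply_of_ne_of_ne hi.ne (lt_of_lt_of_le hi hv).ne]
    · rw [hq]; exact hv'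

/-- the range of values at `q` -/
def vals (q : Fin n) (c : ℕ) : Finset (Fin n) :=
  univ.filter (fun v => q ≤ v ∧ v.val < q.val + c)

lemma card_vals (q : Fin n) (c : ℕ) (hc : q.val + c ≤ n) : (vals q c).card = c := by
  have h : (vals q c).map Fin.valEmbedding = Finset.Ico q.val (q.val + c) := by
    ext x
    simp only [vals, mem_map, mem_filter, mem_univ, true_and, Fin.valEmbedding_apply, mem_Ico]
    constructor
    · rintro ⟨v, ⟨h1, h2⟩, rfl⟩
      exact ⟨Fin.le_def.1 h1, h2⟩
    · rintro ⟨h1, h2⟩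
      exact ⟨⟨x, by omega⟩, ⟨Fin.le_def.2 h1, h2⟩, rfl⟩
  rw [← Finset.card_map Fin.valEmbedding, h, Nat.card_Ico]
  omega

lemma seg_filter_empty (q : Fin n) (c : ℕ) (v : Fin n) (hv : v ∉ vals q c) :
    (seg q c).filter (fun σ => σ q = v) = ∅ := by
  apply Finset.filter_false_of_mem
  intro σ hσ h
  apply hv
  simp only [seg, vals, mem_filter, mem_univ, true_and] at hσ ⊢
  exact ⟨by rw [← h]; exact le_of_fix hσ.1 le_rfl, by rw [← h]; exact hσ.2⟩

lemma card_gt (q : Fin n) : (univ.filter (fun i => q < i)).card = n - 1 - q.val := by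
  have : (univ.filter (fun i => q < i)) = Finset.Ioi q := by
    ext i; simp
  rw [this, Fin.card_Ioi]

lemma card_seg (q : Fin n) (c k : ℕ) (hk : n - 1 - q.val = k) (hc : q.val + c ≤ n) :
    (seg q c).card = c * k.factorial := by
  rw [Finset.card_eq_sum_card_fiberwise (t := vals q c) (f := fun σ => σ q)]
  · rw [Finset.sum_const_nat (m := k.factorial), card_vals q c hc]
    intro v hv
    simp only [vals, mem_filter, mem_univ, true_and] at hv
    rw [seg_filter q c v hv.1 hv.2, card_coset, card_gt, hk]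
  · intro σ hσ
    rw [Finset.mem_coe] at hσ ⊢
    simp only [seg, vals, mem_filter, mem_univ, true_and] at hσ ⊢
    exact ⟨le_of_fix hσ.1 le_rfl, hσ.2⟩

lemma seg_down (q : Fin n) (c : ℕ) : ∀ σ ∈ seg q c, ∀ π, lexLT π σ → π ∈ seg q c := by
  intro σ hσ π hπ
  simp only [seg, mem_filter, mem_univ, true_and] at hσ ⊢
  obtain ⟨j, hj, hj'⟩ := hπ
  have hqj : q ≤ j := by
    by_contra h
    rw [not_le] at h
    rw [hσ.1 j h] at hj'
    have h1 : ∀ i, i < j → π i = i := fun i hi => (hj i hi).trans (hσ.1 i (hi.trans h))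
    exact absurd (le_of_fix h1 le_rfl) (not_le.2 hj')
  refine ⟨fun i hi => (hj i (lt_of_lt_of_le hi hqj)).trans (hσ.1 i hi), ?_⟩
  rcases lt_or_eq_of_le hqj with h | h
  · rw [hj q h]; exact hσ.2
  · subst h
    have h1 := Fin.lt_def.1 hj'
    have h2 := hσ.2
    omega

lemma degree_seg (q : Fin n) (c k : ℕ) (hk : n - 1 - q.val = k) (hc : q.val + c ≤ n)
    {σ : Perm (Fin n)} (hσ : σ ∈ seg q c) :
    k.choose 2 + c ≤ ∑ π ∈ seg q c, e σ π + 1 := by
  classical
  have hσq : σ q ∈ vals q c := by
    simp only [seg, vals, mem_filter, mem_univ, true_and] at hσ ⊢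
    exact ⟨le_of_fix hσ.1 le_rfl, hσ.2⟩
  have h1 : ∑ π ∈ seg q c, e σ π
      = ∑ v ∈ vals q c, ∑ π ∈ (seg q c).filter (fun π => π q = v), e σ π := by
    symm
    apply Finset.sum_fiberwise_of_maps_to
    intro π hπ
    simp only [seg, vals, mem_filter, mem_univ, true_and] at hπ ⊢
    exact ⟨le_of_fix hπ.1 le_rfl, hπ.2⟩
  have h2 : ∑ π ∈ (seg q c).filter (fun π => π q = σ q), e σ π = k.choose 2 := by
    have hv := hσq
    simp only [vals, mem_filter, mem_univ, true_and] at hv
    have hmem : σ ∈ (seg q c).filter (fun π => π q = σ q) := mem_filter.2 ⟨hσ, rfl⟩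
    rw [seg_filter q c (σ q) hv.1 hv.2] at hmem ⊢
    rw [degree_coset _ _ hmem, card_gt, hk]
  have h3 : ∀ v ∈ (vals q c).erase (σ q),
      1 ≤ ∑ π ∈ (seg q c).filter (fun π => π q = v), e σ π := by
    intro v hv
    rw [Finset.mem_erase] at hv
    obtain ⟨hne, hv⟩ := hv
    simp only [vals, mem_filter, mem_univ, true_and] at hv
    have hσ' := hσ
    simp only [seg, mem_filter, mem_univ, true_and] at hσ'
    set z := σ⁻¹ v with hz
    have hσz : σ z = v := by rw [hz]; simp
    have hzq : z ≠ q := by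
      intro h
      rw [h] at hσz
      exact hne hσz.symm
    have hqz : q < z := by
      rcases lt_trichotomy z q with h | h | h
      · have h4 := hσ'.1 z h
        rw [hσz] at h4
        rw [h4] at hv
        exact absurd h (not_lt.2 hv.1)
      · exact absurd h hzq
      · exact h
    have hmem : σ * Equiv.swap q z ∈ (seg q c).filter (fun π => π q = v) := by
      have hqv : (σ * Equiv.swap q z) q = v := by
        rw [Perm.mul_apply, Equiv.swap_apply_left, hσz]
      rw [mem_filter]
      refine ⟨?_, hqv⟩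
      simp only [seg, mem_filter, mem_univ, true_and]
      refine ⟨?_, by rw [hqv]; exact hv.2⟩
      intro i hi
      rw [Perm.mul_apply, Equiv.swap_apply_of_ne_of_ne hi.ne (hi.trans hqz).ne, hσ'.1 i hi]
    have hadj : e σ (σ * Equiv.swap q z) = 1 := by
      rw [e_eq, if_pos]
      exact ⟨q, z, hqz.ne, rfl⟩
    rw [← hadj]
    exact Finset.single_le_sum (f := fun π => e σ π) (fun _ _ => Nat.zero_le _) hmem
  have h4 := Finset.sum_le_sum h3
  rw [Finset.sum_const, smul_eq_mul, mul_one, Finset.card_erase_of_mem hσq,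
    card_vals q c hc] at h4
  have h5 := Finset.add_sum_erase (vals q c)
    (fun v => ∑ π ∈ (seg q c).filter (fun π => π q = v), e σ π) hσq
  rw [h2] at h5
  rw [h1]
  omega

lemma D_seg (q : Fin n) (c k : ℕ) (hk : n - 1 - q.val = k) (hc : q.val + c ≤ n) :
    (seg q c).card * (k.choose 2 + c) ≤ D (seg q c) + (seg q c).card := by
  have h := Finset.sum_le_sum (fun σ (hσ : σ ∈ seg q c) => degree_seg q c k hk hc hσ)
  rw [Finset.sum_const, smul_eq_mul, Finset.sum_add_distrib, Finset.sum_const, smul_eq_mul,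
    mul_one] at h
  exact h

/-- the upper bound in natural numbers -/
lemma P_nat (k : ℕ) (hk : 1 ≤ k) (A : Finset (Perm (Fin n))) :
    k.factorial * D A + k.factorial * A.card
      ≤ A.card ^ 2 + k.factorial * k.choose 2 * A.card := by
  have := P_all k hk A
  unfold P at this
  exact_mod_cast this

/-- a set of size `c * k!` has at most `c * k! * ((k choose 2) + c - 1)` ordered inner pairs -/
lemma D_le_of_card {k c : ℕ} (hk : 1 ≤ k) {A : Finset (Perm (Fin n))}
    (hA : A.card = c * k.factorial) : D A + A.card ≤ A.card * (k.choose 2 + c) := by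
  have h := P_nat k hk A
  have hpos : 0 < k.factorial := Nat.factorial_pos k
  apply Nat.le_of_mul_le_mul_left _ hpos
  calc k.factorial * (D A + A.card) = k.factorial * D A + k.factorial * A.card := by ring
    _ ≤ A.card ^ 2 + k.factorial * k.choose 2 * A.card := h
    _ = k.factorial * (A.card * (k.choose 2 + c)) := by rw [hA]; ring

/-- for sizes `c * k!` with `c ≤ k + 1` some lexicographically down-closed set of the same size
has boundary at most that of `A` -/
theorem exists_down {k c : ℕ} (hk : 1 ≤ k) (hc : c ≤ k + 1) (A : Finset (Perm (Fin n)))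
    (hA : A.card = c * k.factorial) :
    ∃ X : Finset (Perm (Fin n)), X.card = A.card ∧ (∀ σ ∈ X, ∀ π, lexLT π σ → π ∈ X) ∧
      bd X ≤ bd A := by
  rcases Nat.eq_zero_or_pos c with h0 | hcpos
  · subst h0
    have hA0 : A = ∅ := by rw [← Finset.card_eq_zero, hA]; simp
    subst hA0
    exact ⟨∅, rfl, fun σ hσ => absurd hσ (Finset.notMem_empty _), le_rfl⟩
  · by_cases hkn : k < n
    · have hq : n - k - 1 < n := by omega
      set q : Fin n := ⟨n - k - 1, hq⟩ with hqdef
      have hk' : n - 1 - q.val = k := by simp only [hqdef]; omega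
      have hc' : q.val + c ≤ n := by simp only [hqdef]; omega
      have hcard : (seg q c).card = A.card := by rw [card_seg q c k hk' hc', hA]
      refine ⟨seg q c, hcard, seg_down q c, ?_⟩
      have h1 := bd_add_D A
      have h2 := bd_add_D (seg q c)
      have h3 := D_seg q c k hk' hc'
      have h4 := D_le_of_card hk hA
      rw [hcard] at h2 h3
      omega
    · -- everything
      rw [not_lt] at hkn
      have hle : n.factorial ≤ k.factorial := Nat.factorial_le hkn
      have h1 : A.card ≤ n.factorial := by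
        have := Finset.card_le_univ A
        rwa [Fintype.card_perm, Fintype.card_fin] at this
      have h2 : k.factorial ≤ A.card := by
        rw [hA]; exact Nat.le_mul_of_pos_left _ hcpos
      have h3 : A.card = n.factorial := by omega
      have hAu : A = univ := by
        rw [← Finset.card_eq_iff_eq_univ, h3, Fintype.card_perm, Fintype.card_fin]
      exact ⟨A, rfl, by intro σ _ π _; rw [hAu]; exact mem_univ _, le_rfl⟩

/-- boundary comparison for sizes `c * k!` with `c ≤ k + 1` -/
theorem bd_lex_le {k c : ℕ} (hk : 1 ≤ k) (hc : c ≤ k + 1) (A : Finset (Perm (Fin n)))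
    (hA : A.card = c * k.factorial) : bd (lexInit n A.card) ≤ bd A := by
  obtain ⟨X, hX1, hX2, hX3⟩ := exists_down hk hc A hA
  rw [lexInit_eq X hX1 hX2]
  exact hX3

/-! ### complements -/

lemma coset_univ : coset (univ : Finset (Fin n)) 1 = univ := by
  ext σ
  simp [coset]

lemma bd_compl (A : Finset (Perm (Fin n))) : bd Aᶜ = bd A := by
  have h := D_compl (univ : Finset (Fin n)) 1 (A := A) (by rw [coset_univ]; exact subset_univ _)
  rw [coset_univ, ← Finset.compl_eq_univ_sdiff, Finset.card_univ, Fintype.card_fin] at h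
  have h1 := bd_add_D A
  have h2 := bd_add_D Aᶜ
  rw [card_pairs] at h1 h2
  omega

/-- the mirror image of a set of permutations: all values are reversed -/
def mirror (A : Finset (Perm (Fin n))) : Finset (Perm (Fin n)) :=
  A.image (fun σ => Fin.revPerm * σ)

lemma rev_mul_rev (σ : Perm (Fin n)) : Fin.revPerm * (Fin.revPerm * σ) = σ := by
  ext i
  simp

lemma rev_mul_inj : Function.Injective (fun σ : Perm (Fin n) => Fin.revPerm * σ) :=
  mul_right_injective _

lemma card_mirror (A : Finset (Perm (Fin n))) : (mirror A).card = A.card :=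
  Finset.card_image_of_injective _ rev_mul_inj

lemma e_rev (σ π : Perm (Fin n)) : e (Fin.revPerm * σ) (Fin.revPerm * π) = e σ π := by
  classical
  have h : adj (Fin.revPerm * σ) (Fin.revPerm * π) ↔ adj σ π := by
    unfold adj
    constructor
    · rintro ⟨x, y, hxy, h⟩
      rw [mul_assoc] at h
      exact ⟨x, y, hxy, mul_left_cancel h⟩
    · rintro ⟨x, y, hxy, h⟩
      exact ⟨x, y, hxy, by rw [h, mul_assoc]⟩
  rw [e_eq, e_eq]
  simp only [h]

lemma D_mirror (A : Finset (Perm (Fin n))) : D (mirror A) = D A := by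
  unfold D cross mirror
  rw [Finset.sum_image (fun a _ b _ h => rev_mul_inj h)]
  apply Finset.sum_congr rfl
  intro σ _
  rw [Finset.sum_image (fun a _ b _ h => rev_mul_inj h)]
  apply Finset.sum_congr rfl
  intro π _
  exact e_rev σ π

lemma bd_mirror (A : Finset (Perm (Fin n))) : bd (mirror A) = bd A := by
  have h1 := bd_add_D A
  have h2 := bd_add_D (mirror A)
  rw [card_mirror, D_mirror] at h2
  omega

lemma lexLT_rev {σ π : Perm (Fin n)} (h : lexLT π σ) :
    lexLT (Fin.revPerm * σ) (Fin.revPerm * π) := by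
  obtain ⟨j, h1, h2⟩ := h
  refine ⟨j, fun i hi => ?_, ?_⟩
  · rw [Perm.mul_apply, Perm.mul_apply, h1 i hi]
  · rw [Perm.mul_apply, Perm.mul_apply]
    simpa using h2

lemma mirror_down {X : Finset (Perm (Fin n))} (hX : ∀ σ ∈ X, ∀ π, lexLT π σ → π ∈ X) :
    ∀ σ ∈ mirror Xᶜ, ∀ π, lexLT π σ → π ∈ mirror Xᶜ := by
  intro σ hσ π hπ
  unfold mirror at hσ ⊢
  rw [Finset.mem_image] at hσ ⊢
  obtain ⟨τ, hτ, rfl⟩ := hσ
  refine ⟨Fin.revPerm * π, ?_, rev_mul_rev π⟩
  rw [Finset.mem_compl] at hτ ⊢
  intro hcon
  apply hτ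
  have := lexLT_rev hπ
  rw [rev_mul_rev] at this
  exact hX _ hcon _ this

/-- boundary comparison for sizes `n! - c * k!` with `c ≤ k + 1` -/
theorem bd_lex_le' {k c : ℕ} (hk : 1 ≤ k) (hc : c ≤ k + 1) (A : Finset (Perm (Fin n)))
    (hA : A.card + c * k.factorial = n.factorial) : bd (lexInit n A.card) ≤ bd A := by
  have hu : (univ : Finset (Perm (Fin n))).card = n.factorial := by
    rw [Finset.card_univ, Fintype.card_perm, Fintype.card_fin]
  have hAc : Aᶜ.card = c * k.factorial := by
    rw [Finset.card_compl, Fintype.card_perm, Fintype.card_fin]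
    omega
  obtain ⟨X, hX1, hX2, hX3⟩ := exists_down hk hc Aᶜ hAc
  have hcard : (mirror Xᶜ).card = A.card := by
    rw [card_mirror, Finset.card_compl, Fintype.card_perm, Fintype.card_fin, hX1, hAc]
    omega
  rw [lexInit_eq (mirror Xᶜ) hcard (mirror_down hX2), bd_mirror, bd_compl]
  rwa [bd_compl] at hX3

end Pool.H60.Transp
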